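import Pool.Agent.CG.B.Approx

/-!
# CG-J-Tst: testing two equations with `η (u - v)`; bounded gradients

`LqLoc.aesm`: an open subset of `Pt N` is a countable union of compact sets (`IsOpen.isSigmaCompact`-type lemma or `CompactExhaustion`/`exists_isCompact..`; e.g. Ω = ⋃ K n with
`isSigmaCompact`), `aestronglyMeasurable_iUnion_iff`.
`comp_bdd`: on a compact K ⊆ Ω: measurability by `Continuous.comp_aestronglyMeasurable`, bounded a.e. by the maximum of `‖A‖` on the closed unit ball (compact), `MemLp.of_bound` (finite measure).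
`Sol.sub_const`: `∫ inner (A (F x) - c) (grad φ) = ∫ inner (A (F x)) (grad φ) - ∑ k, c k * ∫ X k φ`, `integral_X`; both integrands are integrable (bounded with compact support, measurable), `inner c (grad φ x) = ∑ k, c k * X k φ x`.
`two_sol`: `z := η (u - v)`, `Z := η (F - V) + (u - v) grad η` : HW.sub, HW.mul_smooth; both vanish off `tsupport η` (also `G.grad η`: outside tsupport η the function vanishes on an open set, X_k is a derivative along a line through the point).
`test_ext` (p = p' = 2) with `H := A ∘ F` and with `H := A' ∘ V` (comp_bdd), subtract the two identities and expand the inner product. Integrability: `η`, `grad η` bounded with compact support in Ω,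
`A (F x) - A' (V x)`, `F - V` bounded on tsupport η, `u - v` in L² there.
-/

set_option autoImplicit false

namespace Pool.Agent.CG

open MeasureTheory Set Filter Topology
open scoped ContDiff ENNReal

variable {N m : ℕ} {G : Carnot N m} {Ω : Set (Pt N)}

theorem LqLoc.aesm {E : Type} [NormedAddCommGroup E] {q : ℝ≥0∞} (hΩ : IsOpen Ω) {f : Pt N → E}
    (hf : LqLoc q Ω f) : AEStronglyMeasurable f (volume.restrict Ω) := by
  have : LocallyCompactSpace Ω := hΩ.locallyCompactSpace
  have hcov : Ω = ⋃ n, (Subtype.val '' compactCovering Ω n : Set (Pt N)) := by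
    rw [← image_iUnion, iUnion_compactCovering, image_univ, Subtype.range_coe]
  rw [hcov, aestronglyMeasurable_iUnion_iff]
  intro n
  have hK : IsCompact (Subtype.val '' compactCovering Ω n : Set (Pt N)) :=
    (isCompact_compactCovering Ω n).image continuous_subtype_val
  exact (hf _ hK (by rintro x ⟨y, -, rfl⟩; exact y.2)).1

private theorem finK {K : Set (Pt N)} (hK : IsCompact K) : IsFiniteMeasure (volume.restrict K) :=
  ⟨by rw [Measure.restrict_apply_univ]; exact hK.measure_lt_top⟩

theorem comp_bdd {A : Hv m → Hv m} (hA : Continuous A) {F : Pt N → Hv m} (hF : LqLoc 2 Ω F)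
    (hb : ∀ᵐ x, x ∈ Ω → ‖F x‖ ≤ 1) : LqLoc 2 Ω (fun x => A (F x)) := by
  intro K hK hKΩ
  have := finK hK
  obtain ⟨C, hC⟩ := (isCompact_closedBall (0 : Hv m) 1).exists_bound_of_continuousOn hA.continuousOn
  refine MemLp.of_bound (hA.comp_aestronglyMeasurable (hF K hK hKΩ).1) C ?_
  have h1 : ∀ᵐ x ∂(volume.restrict K), ‖F x‖ ≤ 1 := by
    rw [ae_restrict_iff' hK.measurableSet]
    filter_upwards [hb] with x hx hxK using hx (hKΩ hxK)
  filter_upwards [h1] with x hx
  exact hC _ (by simpa using hx)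

/-- the inner product of two square integrable functions is integrable -/
private theorem int_inner {α : Type} [MeasurableSpace α] {μ : Measure α} {f g : α → Hv m}
    (hf : MemLp f 2 μ) (hg : MemLp g 2 μ) : Integrable (fun x => (inner ℝ (f x) (g x) : ℝ)) μ := by
  have h1 := (memLp_two_iff_integrable_sq_norm hf.1).mp hf
  have h2 := (memLp_two_iff_integrable_sq_norm hg.1).mp hg
  refine (h1.add h2).mono' (hf.1.inner hg.1) (Eventually.of_forall fun x => ?_)
  have h3 := norm_inner_le_norm (𝕜 := ℝ) (f x) (g x)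
  have h4 : 0 ≤ (‖f x‖ - ‖g x‖) ^ 2 := sq_nonneg _
  have h5 := norm_nonneg (f x)
  have h6 := norm_nonneg (g x)
  simp only [Pi.add_apply]
  nlinarith

private theorem tsub {φ : Pt N → ℝ} (hφ : Test Ω φ) : Test (tsupport φ) φ :=
  ⟨hφ.smooth, hφ.cpt, le_rfl⟩

private theorem X_zero {φ : Pt N → ℝ} (hφ : Test Ω φ) (k : Fin m) {x : Pt N}
    (hx : x ∉ tsupport φ) : G.X k φ x = 0 := by
  have h1 := (G.test_X (tsub hφ) k).sub
  exact image_eq_zero_of_notMem_tsupport fun h => hx (h1 h)

private theorem grad_zero {φ : Pt N → ℝ} (hφ : Test Ω φ) {x : Pt N}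
    (hx : x ∉ tsupport φ) : G.grad φ x = 0 := by
  ext k
  exact X_zero hφ k hx

private theorem grad_mem {φ : Pt N → ℝ} (hφ : ContDiff ℝ ∞ φ) {K : Set (Pt N)} (hK : IsCompact K) :
    MemLp (G.grad φ) 2 (volume.restrict K) := by
  have := finK hK
  have hc : Continuous (G.grad φ) := (G.smooth_grad hφ).continuous
  obtain ⟨C, hC⟩ := hK.exists_bound_of_continuousOn hc.continuousOn
  refine MemLp.of_bound hc.aestronglyMeasurable C ?_
  rw [ae_restrict_iff' hK.measurableSet]
  exact Eventually.of_forall fun x hx => hC x hx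

/-- the integrand of the weak equation is integrable -/
private theorem int_eqn {H : Pt N → Hv m} (hH : LqLoc 2 Ω H) {φ : Pt N → ℝ} (hφ : Test Ω φ) :
    Integrable (fun x => (inner ℝ (H x) (G.grad φ x) : ℝ)) := by
  have hK : IsCompact (tsupport φ) := hφ.cpt
  have h1 : IntegrableOn (fun x => (inner ℝ (H x) (G.grad φ x) : ℝ)) (tsupport φ) :=
    int_inner (hH _ hK hφ.sub) (grad_mem hφ.smooth hK)
  rwa [integrableOn_iff_integrable_of_support_subset] at h1
  intro x hx
  by_contra hxs
  exact hx (by simp only [grad_zero hφ hxs, inner_zero_right])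

theorem Sol.sub_const (hΩ : IsOpen Ω) {A : Hv m → Hv m} (hA : Continuous A) {u : Pt N → ℝ}
    {F : Pt N → Hv m} (h : Sol G 2 Ω A u F) (hb : ∀ᵐ x, x ∈ Ω → ‖F x‖ ≤ 1) (c : Hv m) :
    Sol G 2 Ω (fun ξ => A ξ - c) u F := by
  have _ := hΩ
  refine ⟨h.toHW, fun φ hφ => ?_⟩
  have h1 : Integrable (fun x => (inner ℝ (A (F x)) (G.grad φ x) : ℝ)) :=
    int_eqn (comp_bdd hA h.lqg hb) hφ
  have h2 : Integrable (fun x => (inner ℝ c (G.grad φ x) : ℝ)) := by
    refine int_eqn (H := fun _ => c) (Ω := Ω) (fun K hK _ => ?_) hφ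
    have := finK hK
    exact memLp_const c
  have h3 : ∀ x, (inner ℝ c (G.grad φ x) : ℝ) = ∑ k, c k * G.X k φ x := by
    intro x
    rw [PiLp.inner_apply]
    refine Finset.sum_congr rfl fun k _ => ?_
    rw [RCLike.inner_apply, conj_trivial, mul_comm]
    rfl
  have hXi : ∀ k, Integrable (G.X k φ) := fun k =>
    (G.test_X hφ k).smooth.continuous.integrable_of_hasCompactSupport (G.test_X hφ k).cpt
  have h4 : ∫ x, (inner ℝ c (G.grad φ x) : ℝ) = 0 := by
    simp only [h3]
    rw [integral_finsetSum _ fun k _ => (hXi k).const_mul (c k)]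
    refine Finset.sum_eq_zero fun k _ => ?_
    rw [integral_const_mul, G.integral_X (hφ.smooth.of_le (by exact_mod_cast le_top)) hφ.cpt k,
      mul_zero]
  have h5 : (fun x => (inner ℝ (A (F x) - c) (G.grad φ x) : ℝ)) =
      fun x => inner ℝ (A (F x)) (G.grad φ x) - inner ℝ c (G.grad φ x) := by
    funext x
    rw [inner_sub_left]
  rw [h5, integral_sub h1 h2, h.eqn φ hφ, h4, sub_zero]

/-- multiplying a square integrable function by a bounded continuous one -/
private theorem mem_smul {K : Set (Pt N)} (hK : IsCompact K) {η : Pt N → ℝ} (hη : Continuous η)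
    {f : Pt N → Hv m} (hf : MemLp f 2 (volume.restrict K)) :
    MemLp (fun x => η x • f x) 2 (volume.restrict K) := by
  obtain ⟨C, hC⟩ := hK.exists_bound_of_continuousOn hη.continuousOn
  refine MemLp.of_le_mul (c := C) hf (hη.aestronglyMeasurable.smul hf.1) ?_
  rw [ae_restrict_iff' hK.measurableSet]
  refine Eventually.of_forall fun x hx => ?_
  rw [norm_smul]
  exact mul_le_mul_of_nonneg_right (hC x hx) (norm_nonneg _)

private theorem mem_smul' {K : Set (Pt N)} (hK : IsCompact K) {g : Pt N → Hv m}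
    (hg : Continuous g) {f : Pt N → ℝ} (hf : MemLp f 2 (volume.restrict K)) :
    MemLp (fun x => f x • g x) 2 (volume.restrict K) := by
  obtain ⟨C, hC⟩ := hK.exists_bound_of_continuousOn hg.continuousOn
  refine MemLp.of_le_mul (c := C) hf (hf.1.smul hg.aestronglyMeasurable) ?_
  rw [ae_restrict_iff' hK.measurableSet]
  refine Eventually.of_forall fun x hx => ?_
  rw [norm_smul, mul_comm]
  exact mul_le_mul_of_nonneg_right (hC x hx) (norm_nonneg _)

theorem two_sol (hΩ : IsOpen Ω) {A A' : Hv m → Hv m} (hA : Continuous A) (hA' : Continuous A')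
    {u v : Pt N → ℝ} {F V : Pt N → Hv m} (hu : Sol G 2 Ω A u F) (hv : Sol G 2 Ω A' v V)
    (hF : ∀ᵐ x, x ∈ Ω → ‖F x‖ ≤ 1) (hV : ∀ᵐ x, x ∈ Ω → ‖V x‖ ≤ 1) {η : Pt N → ℝ} (hη : Test Ω η) :
    ∫ x, η x * inner ℝ (A (F x) - A' (V x)) (F x - V x) =
      -∫ x, (u x - v x) * inner ℝ (A (F x) - A' (V x)) (G.grad η x) := by
  have hK : IsCompact (tsupport η) := hη.cpt
  have h12 : (1 : ℝ≥0∞) ≤ 2 := by norm_num
  have hHA := comp_bdd hA hu.lqg hF
  have hHA' := comp_bdd hA' hv.lqg hV
  have hηz : ∀ x, x ∉ tsupport η → η x = 0 := fun x hx => image_eq_zero_of_notMem_tsupport hx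
  have hgz : ∀ x, x ∉ tsupport η → G.grad η x = 0 := fun x hx => grad_zero hη hx
  set z : Pt N → ℝ := fun x => η x * (u x - v x) with hz
  set Z : Pt N → Hv m := fun x => η x • (F x - V x) + (u x - v x) • G.grad η x with hZ
  have hzZ : HW G 2 Ω z Z := HW.mul_smooth h12 (HW.sub h12 hu.toHW hv.toHW) hη.smooth
  have hz0 : ∀ x, x ∉ tsupport η → z x = 0 := fun x hx => by simp only [hz, hηz x hx, zero_mul]
  have hZ0 : ∀ x, x ∉ tsupport η → Z x = 0 := fun x hx => by
    simp only [hZ, hηz x hx, hgz x hx, zero_smul, smul_zero, add_zero]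
  have e1 : ∫ x, (inner ℝ (A (F x)) (Z x) : ℝ) = 0 :=
    test_ext hΩ h12 (by norm_num) inferInstance hHA hu.eqn hzZ hK hη.sub hz0 hZ0
  have e2 : ∫ x, (inner ℝ (A' (V x)) (Z x) : ℝ) = 0 :=
    test_ext hΩ h12 (by norm_num) inferInstance hHA' hv.eqn hzZ hK hη.sub hz0 hZ0
  have ext0 : ∀ {H Y : Pt N → Hv m}, MemLp H 2 (volume.restrict (tsupport η)) →
      MemLp Y 2 (volume.restrict (tsupport η)) → (∀ x, x ∉ tsupport η → Y x = 0) →
      Integrable (fun x => (inner ℝ (H x) (Y x) : ℝ)) := by
    intro H Y hH hY hY0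
    have h1 : IntegrableOn (fun x => (inner ℝ (H x) (Y x) : ℝ)) (tsupport η) := int_inner hH hY
    rwa [integrableOn_iff_integrable_of_support_subset] at h1
    intro x hx
    by_contra hxs
    exact hx (by simp only [hY0 x hxs, inner_zero_right])
  have hmA := hHA _ hK hη.sub
  have hmA' := hHA' _ hK hη.sub
  have hmD : MemLp (fun x => A (F x) - A' (V x)) 2 (volume.restrict (tsupport η)) := hmA.sub hmA'
  have hmF := hu.lqg _ hK hη.sub
  have hmV := hv.lqg _ hK hη.sub
  have hmu := hu.lq _ hK hη.sub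
  have hmv := hv.lq _ hK hη.sub
  have hm1 : MemLp (fun x => η x • (F x - V x)) 2 (volume.restrict (tsupport η)) :=
    mem_smul hK hη.smooth.continuous (hmF.sub hmV)
  have hm2 : MemLp (fun x => (u x - v x) • G.grad η x) 2 (volume.restrict (tsupport η)) :=
    mem_smul' hK (G.smooth_grad hη.smooth).continuous (hmu.sub hmv)
  have hmZ : MemLp Z 2 (volume.restrict (tsupport η)) := hm1.add hm2
  have i1 := ext0 hmA hmZ hZ0
  have i2 := ext0 hmA' hmZ hZ0
  have i3 := ext0 hmD hm1 (fun x hx => by simp only [hηz x hx, zero_smul])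
  have i4 := ext0 hmD hm2 (fun x hx => by simp only [hgz x hx, smul_zero])
  have e3 : ∫ x, ((inner ℝ (A (F x) - A' (V x)) (η x • (F x - V x)) : ℝ) +
      inner ℝ (A (F x) - A' (V x)) ((u x - v x) • G.grad η x)) = 0 := by
    have : (fun x => (inner ℝ (A (F x) - A' (V x)) (η x • (F x - V x)) : ℝ) +
      inner ℝ (A (F x) - A' (V x)) ((u x - v x) • G.grad η x)) =
      fun x => inner ℝ (A (F x)) (Z x) - inner ℝ (A' (V x)) (Z x) := by
      funext x
      rw [← inner_add_right, ← inner_sub_left]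
    rw [this, integral_sub i1 i2, e1, e2, sub_zero]
  rw [integral_add i3 i4] at e3
  have e4 : ∀ x, (inner ℝ (A (F x) - A' (V x)) (η x • (F x - V x)) : ℝ) =
      η x * inner ℝ (A (F x) - A' (V x)) (F x - V x) := fun x => by rw [real_inner_smul_right]
  have e5 : ∀ x, (inner ℝ (A (F x) - A' (V x)) ((u x - v x) • G.grad η x) : ℝ) =
      (u x - v x) * inner ℝ (A (F x) - A' (V x)) (G.grad η x) := fun x => by
    rw [real_inner_smul_right]
  simp only [e4, e5] at e3
  linarith

end Pool.Agent.CG
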