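import Mathlib

/-!
# CG-J-Arz: Arzela-Ascoli, sequential form (imports Mathlib only)

Proof plan. `D := TopologicalSpace.denseSeq X` (X is proper, hence second countable; treat the case of an empty `X` separately,
or take a countable dense set `D` with the subtype). For `x` in `D` the sequence `n ↦ f n x` is bounded by some `C x` for ALL n (finitely many exceptions). The map
`n ↦ (fun x : D => f n x)` takes values in the compact set `Set.univ.pi (fun x => closedBall 0 (C x))` of the first countable space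
`D → E` (`isCompact_univ_pi`, `IsCompact.tendsto_subseq`): a subsequence `s` converges at all points of `D`.
For every `x`: `f (s n) x` is a Cauchy sequence: for `ε` take `δ` from `he x (ε/3)` and `d ∈ D` with `dist d x < δ`. Limit `g x`.
`dist y x < δ` gives `‖g y - g x‖ ≤ ε` (limit of the inequality), so `g` is continuous. Uniform convergence on a compact `K`: cover `K` by finitely many balls
`ball x δ_x` (δ_x for ε/3) and use the convergence at the centers (`IsCompact.elim_nhds_subcover`, `Metric.tendstoUniformlyOn_iff`).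
-/

set_option autoImplicit false

namespace Pool.Agent.CG

open Set Filter Topology

theorem arzela {X E : Type} [MetricSpace X] [ProperSpace X] [NormedAddCommGroup E] [ProperSpace E]
    (f : ℕ → X → E) (hb : ∀ x, ∃ C : ℝ, ∀ᶠ n in atTop, ‖f n x‖ ≤ C)
    (he : ∀ x, ∀ ε : ℝ, 0 < ε → ∃ δ : ℝ, 0 < δ ∧
      ∀ᶠ n in atTop, ∀ y, dist y x < δ → ‖f n y - f n x‖ ≤ ε) :
    ∃ s : ℕ → ℕ, StrictMono s ∧ ∃ g : X → E, Continuous g ∧
      ∀ K : Set X, IsCompact K → TendstoUniformlyOn (fun n => f (s n)) g atTop K := by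
  classical
  obtain ⟨D, hDc, hDd⟩ := TopologicalSpace.exists_countable_dense X
  have : Countable D := hDc.to_subtype
  -- bounds for all `n`
  have hb' : ∀ x, ∃ C : ℝ, ∀ n, ‖f n x‖ ≤ C := by
    intro x
    obtain ⟨C, hC⟩ := hb x
    obtain ⟨N, hN⟩ := eventually_atTop.1 hC
    refine ⟨|C| + ∑ k ∈ Finset.range N, ‖f k x‖, fun n => ?_⟩
    have h0 : 0 ≤ ∑ k ∈ Finset.range N, ‖f k x‖ := Finset.sum_nonneg fun _ _ => norm_nonneg _
    by_cases hn : N ≤ n
    · have := (hN n hn).trans (le_abs_self C)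
      linarith
    · have h1 : ‖f n x‖ ≤ ∑ k ∈ Finset.range N, ‖f k x‖ :=
        Finset.single_le_sum (f := fun k => ‖f k x‖) (fun _ _ => norm_nonneg _)
          (Finset.mem_range.2 (by omega))
      have := abs_nonneg C
      linarith
  choose C hC using hb'
  have hK : IsCompact (Set.univ.pi fun d : D => Metric.closedBall (0 : E) (C d)) :=
    isCompact_univ_pi fun d => isCompact_closedBall _ _
  have hmem : ∀ n, (fun d : D => f n d) ∈ Set.univ.pi fun d : D => Metric.closedBall (0 : E) (C d) := by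
    intro n d _
    rw [mem_closedBall_zero_iff]
    exact hC d n
  obtain ⟨g0, -, s, hs, hlim⟩ := hK.tendsto_subseq hmem
  have hlim' : ∀ d : D, Tendsto (fun n => f (s n) d) atTop (𝓝 (g0 d)) := fun d =>
    (tendsto_pi_nhds.1 hlim) d
  have hst : Tendsto s atTop atTop := hs.tendsto_atTop
  -- convergence everywhere
  have hconv : ∀ x, ∃ y, Tendsto (fun n => f (s n) x) atTop (𝓝 y) := by
    intro x
    refine cauchySeq_tendsto_of_complete ?_
    rw [Metric.cauchySeq_iff]
    intro ε hε
    obtain ⟨δ, hδ, hev⟩ := he x (ε / 5) (by positivity)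
    obtain ⟨d, hdD, hd⟩ := hDd.exists_dist_lt x hδ
    have h1 : ∀ᶠ n in atTop, dist (f (s n) d) (g0 ⟨d, hdD⟩) < ε / 5 :=
      (Metric.tendsto_nhds.1 (hlim' ⟨d, hdD⟩)) _ (by positivity)
    obtain ⟨N, hN⟩ := eventually_atTop.1 ((hst.eventually hev).and h1)
    have h2 : ∀ n ≥ N, dist (f (s n) x) (g0 ⟨d, hdD⟩) < 2 * (ε / 5) := by
      intro n hn
      obtain ⟨h3, h4⟩ := hN n hn
      have h5 : dist (f (s n) x) (f (s n) d) ≤ ε / 5 := by
        rw [dist_comm, dist_eq_norm]
        exact h3 d (by rw [dist_comm]; exact hd)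
      have := dist_triangle (f (s n) x) (f (s n) d) (g0 ⟨d, hdD⟩)
      linarith
    refine ⟨N, fun a ha b hb => ?_⟩
    have h3 := h2 a ha
    have h4 := h2 b hb
    have := dist_triangle_right (f (s a) x) (f (s b) x) (g0 ⟨d, hdD⟩)
    linarith
  choose g hg using hconv
  have hcont : ∀ x, ∀ ε : ℝ, 0 < ε → ∃ δ : ℝ, 0 < δ ∧
      (∀ᶠ n in atTop, ∀ y, dist y x < δ → ‖f (s n) y - f (s n) x‖ ≤ ε) ∧
      ∀ y, dist y x < δ → ‖g y - g x‖ ≤ ε := by
    intro x ε hε
    obtain ⟨δ, hδ, hev⟩ := he x ε hε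
    have hev' := hst.eventually hev
    refine ⟨δ, hδ, hev', fun y hy => ?_⟩
    refine le_of_tendsto (((hg y).sub (hg x)).norm) ?_
    filter_upwards [hev'] with n hn
    exact hn y hy
  refine ⟨s, hs, g, ?_, ?_⟩
  · rw [Metric.continuous_iff]
    intro x ε hε
    obtain ⟨δ, hδ, -, h⟩ := hcont x (ε / 2) (by positivity)
    refine ⟨δ, hδ, fun y hy => ?_⟩
    rw [dist_eq_norm]
    have := h y hy
    linarith
  · intro K hK
    rw [Metric.tendstoUniformlyOn_iff]
    intro ε hε
    choose δ hδ hev hgc using fun x => hcont x (ε / 4) (by positivity)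
    obtain ⟨t, -, ht⟩ := hK.elim_nhds_subcover (fun x => Metric.ball x (δ x))
      fun x _ => Metric.ball_mem_nhds x (hδ x)
    have h1 : ∀ᶠ n in atTop, ∀ x ∈ t, (∀ y, dist y x < δ x → ‖f (s n) y - f (s n) x‖ ≤ ε / 4) ∧
        dist (f (s n) x) (g x) < ε / 4 := by
      rw [Filter.eventually_all_finset]
      intro x _
      exact (hev x).and ((Metric.tendsto_nhds.1 (hg x)) _ (by positivity))
    filter_upwards [h1] with n hn y hy
    obtain ⟨x, hxt, hxy⟩ := Set.mem_iUnion₂.1 (ht hy)
    obtain ⟨h2, h3⟩ := hn x hxt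
    have h4 := h2 y hxy
    have h5 := hgc x y hxy
    rw [← dist_eq_norm] at h4 h5
    have h6 := dist_triangle (g y) (g x) (f (s n) y)
    have h7 := dist_triangle (g x) (f (s n) x) (f (s n) y)
    rw [dist_comm (g x) (f (s n) x)] at h7
    rw [dist_comm (f (s n) y) (f (s n) x)] at h4
    linarith

end Pool.Agent.CG
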