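import Pool.Agent.CG.J.Tst
import Pool.Agent.CG.F.Basic
import Pool.Agent.CG.A.Cut

/-!
# CG-J-Cau: the Cauchy estimate

Cut-off `η` from `Carnot.exists_cutoff` for `B 0 r`, `B 0 (r+1)` (constant `C0`). `two_sol` on `Ω = G.B 0 (r+1)` gives
`∫ η ⟨A F - A' V, F - V⟩ = -∫ (u-v) ⟨A F - A' V, grad η⟩ ≤ δ * (2 K) * C0 * |B|`, `K := 2 L` (‖A ξ‖, ‖A' ξ‖ ≤ L 2^a ‖ξ‖^(1-a) ≤ 2 L for ‖ξ‖ ≤ 1 by `nrm_min` with ζ = 0, A 0 = 0), `|B| := (volume (G.B 0 (r+1))).toReal`.
`⟨A F - A V, F - V⟩ = ⟨A F - A' V, F - V⟩ + ⟨A' V - A V, F - V⟩ ≤ .. + 2 δ`, and `⟨A F - A V, F - V⟩ ≥ (1/2)^b ‖F-V‖^(2+b)` (nrm_min). So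
`(1/2)^b ∫_{B 0 r} ‖F-V‖^(2+b) ≤ (1/2)^b ∫ η ‖F-V‖^(2+b) ≤ C δ`, `C := (4 L C0 + 2) |B|`.
`t ^ 2 ≤ θ ^ 2 + θ ^ (-b) * t ^ (2+b)` for `t ≥ 0`, `θ > 0` (if t ≤ θ: first term; if t > θ: t^2 = t^(2+b) t^(-b) ≤ θ^(-b) t^(2+b)). Choose θ with `θ^2 |B| ≤ ε/2` and then δ.
Continuity of A, A': `AA.continuous`. The functions are measurable and bounded on B 0 (r+1) (LqLoc.aesm), so everything is integrable on B 0 (r+1).
-/

set_option autoImplicit false

namespace Pool.Agent.CG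

open MeasureTheory Set Filter Topology
open scoped ContDiff ENNReal

variable {N m : ℕ}

private theorem cau_sq {b θ t : ℝ} (hb : 0 ≤ b) (hθ : 0 < θ) (ht : 0 ≤ t) :
    t ^ 2 ≤ θ ^ 2 + θ ^ (-b) * t ^ (2 + b) := by
  rcases le_or_gt t θ with h | h
  · have h1 : t ^ 2 ≤ θ ^ 2 := pow_le_pow_left₀ ht h 2
    have h2 : 0 ≤ θ ^ (-b) * t ^ (2 + b) := by positivity
    linarith
  · have ht0 : 0 < t := hθ.trans h
    have h1 : t ^ (-b) ≤ θ ^ (-b) :=
      Real.rpow_le_rpow_of_nonpos hθ h.le (by linarith)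
    have h2 : t ^ (-b) * t ^ (2 + b) = t ^ 2 := by
      rw [← Real.rpow_add ht0]
      have : -b + (2 + b) = (2 : ℕ) := by push_cast; ring
      rw [this, Real.rpow_natCast]
    have h3 : t ^ (-b) * t ^ (2 + b) ≤ θ ^ (-b) * t ^ (2 + b) :=
      mul_le_mul_of_nonneg_right h1 (by positivity)
    have h4 : 0 ≤ θ ^ 2 := by positivity
    linarith

private theorem cau_grad {G : Carnot N m} {Ω : Set (Pt N)} {φ : Pt N → ℝ} (hφ : Test Ω φ)
    {x : Pt N} (hx : x ∉ tsupport φ) : G.grad φ x = 0 := by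
  ext k
  have h1 := (G.test_X (Ω := tsupport φ) ⟨hφ.smooth, hφ.cpt, le_rfl⟩ k).sub
  have h2 : G.X k φ x = 0 := image_eq_zero_of_notMem_tsupport fun h => hx (h1 h)
  exact h2

private theorem cau_bd {a b L : ℝ} (ha0 : 0 ≤ a) (ha : a < 1) (hb : 0 ≤ b) (hL : 1 ≤ L)
    {A : Hv m → Hv m} (hA : Nrm a b L A) (h0 : A 0 = 0) {ξ : Hv m} (hξ : ‖ξ‖ ≤ 1) :
    ‖A ξ‖ ≤ 2 * L := by
  have h1 := (nrm_min ha0 ha hb (by linarith) hA hξ (ζ := 0) (by simp)).2
  rw [h0, sub_zero, sub_zero] at h1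
  have h2 : (2 : ℝ) ^ a ≤ 2 := by
    have := Real.rpow_le_rpow_of_exponent_le (x := 2) (by norm_num) ha.le
    rwa [Real.rpow_one] at this
  have h3 : ‖ξ‖ ^ (1 - a) ≤ 1 := Real.rpow_le_one (norm_nonneg _) hξ (by linarith)
  have h4 : 0 ≤ ‖ξ‖ ^ (1 - a) := by positivity
  have h5 : 0 ≤ (2 : ℝ) ^ a := by positivity
  calc ‖A ξ‖ ≤ L * 2 ^ a * ‖ξ‖ ^ (1 - a) := h1
    _ ≤ L * 2 * 1 := by gcongr
    _ = 2 * L := by ring

theorem cauchy_l2 (G : Carnot N m) {a b L : ℝ} (ha0 : 0 ≤ a) (ha : a < 1) (hb : 0 ≤ b) (hL : 1 ≤ L)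
    {r ε : ℝ} (hr : 0 < r) (hε : 0 < ε) : ∃ δ : ℝ, 0 < δ ∧
    ∀ (A A' : Hv m → Hv m) (u v : Pt N → ℝ) (F V : Pt N → Hv m), Nrm a b L A → Nrm a b L A' →
      A 0 = 0 → A' 0 = 0 → Sol G 2 (G.B 0 (r + 1)) A u F → Sol G 2 (G.B 0 (r + 1)) A' v V →
      (∀ᵐ x, x ∈ G.B 0 (r + 1) → ‖F x‖ ≤ 1) → (∀ᵐ x, x ∈ G.B 0 (r + 1) → ‖V x‖ ≤ 1) →
      (∀ ξ, ‖ξ‖ ≤ 1 → ‖A ξ - A' ξ‖ ≤ δ) → (∀ᵐ x, x ∈ G.B 0 (r + 1) → |u x - v x| ≤ δ) →
      ∫ x in G.B 0 r, ‖F x - V x‖ ^ 2 ≤ ε := by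
  obtain ⟨C0, hC0, hcut⟩ := G.exists_cutoff
  obtain ⟨η, hη, hη0, hη1, hηr, hηg⟩ := hcut 0 r (r + 1) hr (by linarith)
  set Ω : Set (Pt N) := G.B 0 (r + 1) with hΩdef
  have hΩ : IsOpen Ω := G.isOpen_B 0 (r + 1)
  have hBΩ : G.B 0 r ⊆ Ω := by
    intro y hy
    rw [G.mem_B] at hy
    rw [hΩdef, G.mem_B]
    linarith
  have hBm : MeasurableSet (G.B 0 r) := (G.isOpen_B 0 r).measurableSet
  have hfin : volume Ω < ⊤ := G.vol_B_lt_top 0 (r + 1)
  set vol : ℝ := (volume Ω).toReal with hvol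
  have hvol0 : 0 ≤ vol := ENNReal.toReal_nonneg
  have hηg' : ∀ y, ‖G.grad η y‖ ≤ C0 := by
    intro y
    have := hηg y
    rwa [add_sub_cancel_left, div_one] at this
  set cb : ℝ := (2 : ℝ)⁻¹ ^ b with hcb
  have hcb0 : 0 < cb := by positivity
  set θ : ℝ := Real.sqrt (ε / (2 * (vol + 1))) with hθdef
  have hθ : 0 < θ := Real.sqrt_pos.2 (by positivity)
  have hθ2 : θ ^ 2 = ε / (2 * (vol + 1)) := Real.sq_sqrt (by positivity)
  set κ : ℝ := θ ^ (-b) * cb⁻¹ with hκdef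
  have hκ : 0 < κ := by positivity
  set δ : ℝ := ε / (2 * (κ * (4 * L * C0 + 2) * (vol + 1))) with hδdef
  have hL0 : 0 < L := by linarith
  have hδ : 0 < δ := by positivity
  refine ⟨δ, hδ, ?_⟩
  intro A A' u v F V hA hA' hA0 hA0' hu hv hF hV hAA huv
  have hAc : Continuous A := by
    obtain ⟨W, hW, -, h⟩ := hA
    exact h.continuous ha hb hL0.le hW
  have hAc' : Continuous A' := by
    obtain ⟨W, hW, -, h⟩ := hA'
    exact h.continuous ha hb hL0.le hW
  set q : Pt N → ℝ := fun x => inner ℝ (A (F x) - A' (V x)) (F x - V x) with hq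
  have htwo := two_sol hΩ hAc hAc' hu hv hF hV hη
  -- `η` vanishes off `Ω`
  have hηΩ : ∀ x, x ∉ Ω → η x = 0 := fun x hx =>
    image_eq_zero_of_notMem_tsupport fun h => hx (hη.sub h)
  -- pointwise bounds
  have hbd : ∀ᵐ x, x ∈ Ω → ‖A (F x) - A' (V x)‖ ≤ 4 * L := by
    filter_upwards [hF, hV] with x h1 h2 hx
    have h3 := cau_bd ha0 ha hb hL hA hA0 (h1 hx)
    have h4 := cau_bd ha0 ha hb hL hA' hA0' (h2 hx)
    have h5 := norm_sub_le (A (F x)) (A' (V x))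
    linarith
  have hFV : ∀ᵐ x, x ∈ Ω → ‖F x - V x‖ ≤ 2 := by
    filter_upwards [hF, hV] with x h1 h2 hx
    have h5 := norm_sub_le (F x) (V x)
    have := h1 hx
    have := h2 hx
    linarith
  have hlow : ∀ᵐ x, x ∈ Ω → cb * ‖F x - V x‖ ^ (2 + b) ≤ q x + 2 * δ := by
    filter_upwards [hF, hV, hFV] with x h1 h2 h3 hx
    have h4 := (nrm_min ha0 ha hb hL0.le hA (h1 hx) (h2 hx)).1
    have h5 : (inner ℝ (A (F x) - A (V x)) (F x - V x) : ℝ) =
        q x + inner ℝ (A' (V x) - A (V x)) (F x - V x) := by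
      simp only [hq]
      rw [← inner_add_left]
      congr 1
      abel
    have h6 : (inner ℝ (A' (V x) - A (V x)) (F x - V x) : ℝ) ≤ δ * 2 := by
      refine (real_inner_le_norm _ _).trans ?_
      rw [norm_sub_rev]
      exact mul_le_mul (hAA _ (h2 hx)) (h3 hx) (norm_nonneg _) hδ.le
    rw [h5, ← hcb] at h4
    linarith
  -- integrability
  have hint : Integrable (fun x => η x * q x) := by
    have hK : IsCompact (tsupport η) := hη.cpt
    have h1 : IntegrableOn (fun x => η x * q x) (tsupport η) := by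
      have : IsFiniteMeasure (volume.restrict (tsupport η)) :=
        ⟨by rw [Measure.restrict_apply_univ]; exact hK.measure_lt_top⟩
      have m1 := (comp_bdd hAc hu.lqg hF _ hK hη.sub).1
      have m2 := (comp_bdd hAc' hv.lqg hV _ hK hη.sub).1
      have m3 := (hu.lqg _ hK hη.sub).1
      have m4 := (hv.lqg _ hK hη.sub).1
      refine Integrable.of_bound
        (hη.smooth.continuous.aestronglyMeasurable.mul ((m1.sub m2).inner (m3.sub m4)))
        (4 * L * 2) ?_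
      rw [ae_restrict_iff' hK.measurableSet]
      filter_upwards [hbd, hFV] with x h1 h2 hx
      have hxΩ := hη.sub hx
      rw [norm_mul, Real.norm_eq_abs, abs_of_nonneg (hη0 x)]
      have h3 : ‖q x‖ ≤ 4 * L * 2 :=
        (norm_inner_le_norm _ _).trans (mul_le_mul (h1 hxΩ) (h2 hxΩ) (norm_nonneg _) (by positivity))
      calc η x * ‖q x‖ ≤ 1 * (4 * L * 2) :=
            mul_le_mul (hη1 x) h3 (norm_nonneg _) zero_le_one
        _ = 4 * L * 2 := one_mul _
    rwa [integrableOn_iff_integrable_of_support_subset] at h1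
    intro x hx
    by_contra hxs
    exact hx (by simp only [image_eq_zero_of_notMem_tsupport hxs, zero_mul])
  -- the right hand side
  have hI : ∫ x, η x * q x ≤ 4 * L * C0 * δ * vol := by
    have h1 : ∫ x, η x * q x =
        -∫ x, (u x - v x) * inner ℝ (A (F x) - A' (V x)) (G.grad η x) := htwo
    rw [h1]
    refine (neg_le_abs _).trans ?_
    rw [← Real.norm_eq_abs]
    have h2 : Integrable (Ω.indicator fun _ => 4 * L * C0 * δ) :=
      (integrable_indicator_iff hΩ.measurableSet).2 (integrableOn_const hfin.ne)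
    refine (norm_integral_le_of_norm_le h2 ?_).trans ?_
    · filter_upwards [hbd, huv] with x h3 h4
      by_cases hx : x ∈ Ω
      · rw [indicator_of_mem hx, norm_mul, Real.norm_eq_abs]
        have h5 : ‖(inner ℝ (A (F x) - A' (V x)) (G.grad η x) : ℝ)‖ ≤ 4 * L * C0 :=
          (norm_inner_le_norm _ _).trans
            (mul_le_mul (h3 hx) (hηg' x) (norm_nonneg _) (by positivity))
        calc |u x - v x| * ‖(inner ℝ (A (F x) - A' (V x)) (G.grad η x) : ℝ)‖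
            ≤ δ * (4 * L * C0) := mul_le_mul (h4 hx) h5 (norm_nonneg _) hδ.le
          _ = 4 * L * C0 * δ := by ring
      · rw [indicator_of_notMem hx, cau_grad hη (fun h => hx (hη.sub h)), inner_zero_right,
          mul_zero, norm_zero]
    · rw [integral_indicator hΩ.measurableSet, setIntegral_const, smul_eq_mul, Measure.real,
        ← hvol]
      exact le_of_eq (by ring)
  -- pointwise estimate
  have hpt : ∀ᵐ x, (G.B 0 r).indicator (fun x => ‖F x - V x‖ ^ 2) x ≤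
      Ω.indicator (fun _ => θ ^ 2 + κ * (2 * δ)) x + κ * (η x * q x) := by
    filter_upwards [hlow] with x h1
    by_cases hx : x ∈ Ω
    · have h2 := h1 hx
      have h3 : 0 ≤ q x + 2 * δ := le_trans (by positivity) h2
      rw [indicator_of_mem hx]
      by_cases hxr : x ∈ G.B 0 r
      · rw [indicator_of_mem hxr, hηr x hxr, one_mul]
        have h4 := cau_sq hb hθ (norm_nonneg (F x - V x))
        have h5 : ‖F x - V x‖ ^ (2 + b) ≤ cb⁻¹ * (q x + 2 * δ) := by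
          rw [← div_eq_inv_mul, le_div_iff₀ hcb0]
          linarith
        have h6 : θ ^ (-b) * ‖F x - V x‖ ^ (2 + b) ≤ θ ^ (-b) * (cb⁻¹ * (q x + 2 * δ)) :=
          mul_le_mul_of_nonneg_left h5 (by positivity)
        have h7 : θ ^ (-b) * (cb⁻¹ * (q x + 2 * δ)) = κ * (2 * δ) + κ * q x := by
          rw [hκdef]; ring
        linarith
      · rw [indicator_of_notMem hxr]
        have h4 : 0 ≤ η x * q x + 2 * δ := by
          have h5 : 0 ≤ η x * (q x + 2 * δ) := mul_nonneg (hη0 x) h3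
          have h6 : η x * (2 * δ) ≤ 1 * (2 * δ) :=
            mul_le_mul_of_nonneg_right (hη1 x) (by positivity)
          nlinarith
        have h5 : 0 ≤ κ * (η x * q x + 2 * δ) := mul_nonneg hκ.le h4
        have h6 : 0 ≤ θ ^ 2 := by positivity
        nlinarith
    · rw [indicator_of_notMem hx, indicator_of_notMem (fun h => hx (hBΩ h)), hηΩ x hx]
      simp
  have hgi : Integrable (fun x => Ω.indicator (fun _ => θ ^ 2 + κ * (2 * δ)) x + κ * (η x * q x)) :=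
    ((integrable_indicator_iff hΩ.measurableSet).2 (integrableOn_const hfin.ne)).add
      (hint.const_mul κ)
  have hmain : ∫ x in G.B 0 r, ‖F x - V x‖ ^ 2 ≤
      (θ ^ 2 + κ * (2 * δ)) * vol + κ * ∫ x, η x * q x := by
    rw [← integral_indicator hBm]
    refine (integral_mono_of_nonneg (Eventually.of_forall fun x => ?_) hgi hpt).trans ?_
    · exact indicator_nonneg (fun _ _ => by positivity) x
    · rw [integral_add ((integrable_indicator_iff hΩ.measurableSet).2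
        (integrableOn_const hfin.ne)) (hint.const_mul κ), integral_const_mul,
        integral_indicator hΩ.measurableSet, setIntegral_const, smul_eq_mul, Measure.real, ← hvol]
      exact le_of_eq (by ring)
  refine hmain.trans ?_
  have h1 : κ * ∫ x, η x * q x ≤ κ * (4 * L * C0 * δ * vol) := mul_le_mul_of_nonneg_left hI hκ.le
  have h2 : θ ^ 2 * vol ≤ ε / 2 := by
    rw [hθ2]
    have h3 : ε / (2 * (vol + 1)) * vol ≤ ε / (2 * (vol + 1)) * (vol + 1) :=
      mul_le_mul_of_nonneg_left (by linarith) (by positivity)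
    have h4 : ε / (2 * (vol + 1)) * (vol + 1) = ε / 2 := by field_simp
    linarith
  have h3 : κ * (4 * L * C0 + 2) * δ * vol ≤ ε / 2 := by
    have h4 : κ * (4 * L * C0 + 2) * δ * vol ≤ κ * (4 * L * C0 + 2) * δ * (vol + 1) :=
      mul_le_mul_of_nonneg_left (by linarith) (by positivity)
    have h5 : κ * (4 * L * C0 + 2) * δ * (vol + 1) = ε / 2 := by
      rw [hδdef]
      field_simp
    linarith
  nlinarith

end Pool.Agent.CG
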