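import Pool.Agent.CG.J.Tst
import Pool.Agent.CG.A.Ball

/-!
# CG-J-LimF: limit of the gradients in L²_loc

Set `f n := (G.B 0 (R n)).indicator (F n)`: AEStronglyMeasurable, `‖f n x‖ ≤ 1` a.e. Finite measure `ν` with
density `(1 + ‖x‖) ^ (-(N + 1))`. `f n` is Cauchy in `L²(ν)`: for ε choose r with `ν (G.B 0 r)ᶜ ≤ ε` (the balls
exhaust the space, `ν` finite), then `∫ ‖f n - f n'‖² dν ≤ ∫_{B 0 r} ‖F n - F n'‖² + 4 ε` for n, n' large.
Completeness of `Lp (Hv m) 2 ν`: limit F'. The density is ≥ c > 0 on the (relatively compact) ball `B 0 r`, so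
`∫_{B 0 r} ‖F n - F'‖² ≤ c⁻¹ ∫ ‖f n - F'‖² dν → 0`. `‖F'‖ ≤ 1` a.e.: a subsequence converges a.e.
-/

set_option autoImplicit false

namespace Pool.Agent.CG

open MeasureTheory Set Filter Topology
open scoped ContDiff ENNReal

variable {N m : ℕ}

private noncomputable def jlf_w (x : Pt N) : ℝ≥0∞ :=
  ENNReal.ofReal ((1 + ‖x‖) ^ (-((N : ℝ) + 1)))

private noncomputable def jlf_nu (N : ℕ) : Measure (Pt N) := volume.withDensity jlf_w

private theorem jlf_meas : Measurable (jlf_w : Pt N → ℝ≥0∞) := by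
  unfold jlf_w
  fun_prop

private instance jlf_fin : IsFiniteMeasure (jlf_nu N) := by
  refine isFiniteMeasure_withDensity ?_
  have h : (Module.finrank ℝ (Pt N) : ℝ) < (N : ℝ) + 1 := by
    simp [Pt]
  exact (finite_integral_one_add_norm (μ := (volume : Measure (Pt N))) h).ne

private theorem jlf_ac : jlf_nu N ≪ (volume : Measure (Pt N)) :=
  withDensity_absolutelyContinuous _ _

private theorem jlf_ac' : (volume : Measure (Pt N)) ≪ jlf_nu N := by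
  refine withDensity_absolutelyContinuous' jlf_meas.aemeasurable (Eventually.of_forall fun x => ?_)
  have h : 0 < (1 + ‖x‖) ^ (-((N : ℝ) + 1)) := Real.rpow_pos_of_pos (by positivity) _
  unfold jlf_w
  simpa using h

private theorem jlf_le (x : Pt N) : jlf_w x ≤ 1 := by
  unfold jlf_w
  rw [ENNReal.ofReal_le_one]
  exact Real.rpow_le_one_of_one_le_of_nonpos (by linarith [norm_nonneg x]) (by
    have : (0 : ℝ) ≤ N := Nat.cast_nonneg N
    linarith)

private theorem jlf_nu_le : jlf_nu N ≤ (volume : Measure (Pt N)) := by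
  have h := withDensity_mono (μ := (volume : Measure (Pt N))) (f := jlf_w) (g := 1)
    (Eventually.of_forall fun x => jlf_le x)
  rwa [withDensity_one] at h

private theorem jlf_low {K : Set (Pt N)} (hK : MeasurableSet K) {c : ℝ≥0∞}
    (hc : ∀ x ∈ K, c ≤ jlf_w x) (g : Pt N → ℝ≥0∞) :
    c * ∫⁻ x in K, g x ≤ ∫⁻ x in K, g x ∂(jlf_nu N) := by
  have h1 : (volume.restrict K).withDensity (fun _ => c) ≤
      (volume.restrict K).withDensity (jlf_w : Pt N → ℝ≥0∞) := by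
    refine withDensity_mono ?_
    rw [EventuallyLE, ae_restrict_iff' hK]
    exact Eventually.of_forall hc
  rw [withDensity_const, ← restrict_withDensity hK] at h1
  have h2 := lintegral_mono' h1 (le_refl g)
  rw [lintegral_smul_measure] at h2
  exact h2

private theorem jlf_sq {μ : Measure (Pt N)} (f : Pt N → Hv m) :
    eLpNorm f 2 μ ^ 2 = ∫⁻ x, ‖f x‖ₑ ^ 2 ∂μ := by
  have h := eLpNorm_nnreal_pow_eq_lintegral (f := f) (μ := μ) (p := 2) (by norm_num)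
  have e : (((2 : NNReal)) : ℝ) = ((2 : ℕ) : ℝ) := by norm_num
  rw [e] at h
  simp only [ENNReal.rpow_natCast] at h
  exact h

private theorem jlf_int {μ : Measure (Pt N)} {f : Pt N → Hv m} (hf : MemLp f 2 μ) :
    ENNReal.ofReal (∫ x, ‖f x‖ ^ 2 ∂μ) = ∫⁻ x, ‖f x‖ₑ ^ 2 ∂μ := by
  rw [ofReal_integral_eq_lintegral_ofReal (hf.norm.integrable_sq)
    (Eventually.of_forall fun x => by positivity)]
  refine lintegral_congr fun x => ?_
  rw [ENNReal.ofReal_pow (norm_nonneg _), ofReal_norm]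

private theorem jlf_tail (G : Carnot N m) :
    Tendsto (fun j : ℕ => jlf_nu N (G.B 0 j)ᶜ) atTop (𝓝 0) := by
  have h := tendsto_measure_iInter_atTop (μ := jlf_nu N) (s := fun j : ℕ => (G.B 0 j)ᶜ)
    (fun j => (G.isOpen_B 0 j).measurableSet.compl.nullMeasurableSet)
    (by
      intro i j hij
      refine compl_subset_compl.2 fun x hx => ?_
      have h1 : G.di 0 x < i := hx
      have h2 : (i : ℝ) ≤ j := by exact_mod_cast hij
      exact lt_of_lt_of_le h1 h2)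
    ⟨0, measure_ne_top _ _⟩
  have h0 : (⋂ j : ℕ, (G.B 0 (j : ℝ))ᶜ) = ∅ := by
    refine Set.eq_empty_of_forall_notMem fun x hx => ?_
    obtain ⟨j, hj⟩ := exists_nat_gt (G.di 0 x)
    have h1 := Set.mem_iInter.1 hx j
    exact h1 hj
  rw [h0, measure_empty] at h
  exact h

theorem lim_F (G : Carnot N m) (R : ℕ → ℝ) (hR : Tendsto R atTop atTop) (F : ℕ → Pt N → Hv m)
    (hm : ∀ n, AEStronglyMeasurable (F n) (volume.restrict (G.B 0 (R n))))
    (hb : ∀ n, ∀ᵐ x, x ∈ G.B 0 (R n) → ‖F n x‖ ≤ 1)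
    (hc : ∀ r ε : ℝ, 0 < r → 0 < ε → ∃ n0 : ℕ, ∀ n ≥ n0, ∀ n' ≥ n0,
      ∫ x in G.B 0 r, ‖F n x - F n' x‖ ^ 2 ≤ ε) :
    ∃ F' : Pt N → Hv m, AEStronglyMeasurable F' volume ∧ (∀ᵐ x, ‖F' x‖ ≤ 1) ∧
      ∀ r : ℝ, Tendsto (fun n => ∫ x in G.B 0 r, ‖F n x - F' x‖ ^ 2) atTop (𝓝 0) := by
  classical
  have hBm : ∀ r : ℝ, MeasurableSet (G.B 0 r) := fun r => (G.isOpen_B 0 r).measurableSet
  have hBs : ∀ r : ℝ, G.B 0 r ⊆ {y | G.di 0 y ≤ r} := fun r y hy => le_of_lt (a := G.di 0 y) hy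
  set f : ℕ → Pt N → Hv m := fun n => (G.B 0 (R n)).indicator (F n) with hf
  have hfm : ∀ n, AEStronglyMeasurable (f n) volume := fun n =>
    (aestronglyMeasurable_indicator_iff (hBm (R n))).2 (hm n)
  have hfb : ∀ n, ∀ᵐ x, ‖f n x‖ ≤ 1 := by
    intro n
    filter_upwards [hb n] with x hx
    by_cases hxB : x ∈ G.B 0 (R n)
    · simp only [hf, Set.indicator_of_mem hxB]
      exact hx hxB
    · simp only [hf, Set.indicator_of_notMem hxB, norm_zero]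
      exact zero_le_one
  have hfB : ∀ r : ℝ, ∀ᶠ n in atTop, ∀ x ∈ G.B 0 r, f n x = F n x := by
    intro r
    filter_upwards [hR.eventually_ge_atTop r] with n hn x hx
    have hxB : x ∈ G.B 0 (R n) := lt_of_lt_of_le hx hn
    simp only [hf, Set.indicator_of_mem hxB]
  have hfL : ∀ n, MemLp (f n) 2 (jlf_nu N) := fun n =>
    MemLp.of_bound ((hfm n).mono_ac jlf_ac) 1 (jlf_ac.ae_le (hfb n))
  have hfLv : ∀ (n : ℕ) (r : ℝ), MemLp (f n) 2 (volume.restrict (G.B 0 r)) := by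
    intro n r
    haveI : IsFiniteMeasure (volume.restrict (G.B 0 r)) := by
      refine ⟨?_⟩
      rw [Measure.restrict_apply_univ]
      exact lt_of_le_of_lt (measure_mono (hBs r)) (G.isCompact_cB 0 r).measure_lt_top
    exact MemLp.of_bound (hfm n).restrict 1 (ae_restrict_of_ae (hfb n))
  -- the Cauchy estimate
  have hcau : ∀ ε : ℝ≥0∞, 0 < ε → ε ≠ ⊤ → ∃ n0 : ℕ, ∀ n ≥ n0, ∀ n' ≥ n0,
      ∫⁻ x, ‖f n x - f n' x‖ₑ ^ 2 ∂(jlf_nu N) ≤ ε + 4 * ε := by
    intro ε hε hεt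
    obtain ⟨j, hj, hj1⟩ := ((jlf_tail G).eventually (ge_mem_nhds hε) |>.and
      (eventually_ge_atTop 1)).exists
    have hj0 : (0 : ℝ) < j := by exact_mod_cast hj1
    have hεr : 0 < ε.toReal := ENNReal.toReal_pos hε.ne' hεt
    obtain ⟨n1, hn1⟩ := hc j ε.toReal hj0 hεr
    obtain ⟨n2, hn2⟩ := eventually_atTop.1 (hfB j)
    refine ⟨max n1 n2, fun n hn n' hn' => ?_⟩
    rw [← lintegral_add_compl _ (hBm j)]
    refine add_le_add ?_ ?_
    · calc ∫⁻ x in G.B 0 j, ‖f n x - f n' x‖ₑ ^ 2 ∂(jlf_nu N)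
          ≤ ∫⁻ x in G.B 0 j, ‖f n x - f n' x‖ₑ ^ 2 :=
            lintegral_mono' (Measure.restrict_mono_measure jlf_nu_le _) le_rfl
        _ = ENNReal.ofReal (∫ x in G.B 0 j, ‖f n x - f n' x‖ ^ 2) :=
            (jlf_int ((hfLv n j).sub (hfLv n' j))).symm
        _ ≤ ε := by
            have h1 : ∫ x in G.B 0 j, ‖f n x - f n' x‖ ^ 2 =
                ∫ x in G.B 0 j, ‖F n x - F n' x‖ ^ 2 := by
              refine setIntegral_congr_fun (hBm j) fun x hx => ?_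
              simp only [hn2 n (le_of_max_le_right hn) x hx, hn2 n' (le_of_max_le_right hn') x hx]
            rw [h1]
            refine ENNReal.ofReal_le_of_le_toReal ?_
            exact hn1 n (le_of_max_le_left hn) n' (le_of_max_le_left hn')
    · calc ∫⁻ x in (G.B 0 j)ᶜ, ‖f n x - f n' x‖ₑ ^ 2 ∂(jlf_nu N)
          ≤ ∫⁻ x in (G.B 0 j)ᶜ, 4 ∂(jlf_nu N) := by
            refine lintegral_mono_ae (ae_restrict_of_ae (jlf_ac.ae_le ?_))
            filter_upwards [hfb n, hfb n'] with x hx hx'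
            have h1 : ‖f n x - f n' x‖ ≤ 2 := (norm_sub_le _ _).trans (by linarith)
            rw [← ofReal_norm, ← ENNReal.ofReal_pow (norm_nonneg _)]
            have h2 : ‖f n x - f n' x‖ ^ 2 ≤ 4 := by nlinarith [norm_nonneg (f n x - f n' x)]
            refine (ENNReal.ofReal_le_ofReal h2).trans ?_
            norm_num
        _ = 4 * jlf_nu N (G.B 0 j)ᶜ := setLIntegral_const _ _
        _ ≤ 4 * ε := by gcongr
  have hcs : CauchySeq (fun n => (hfL n).toLp (f n)) := by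
    rw [EMetric.cauchySeq_iff]
    intro δ hδ
    -- choose ε with 5 ε < δ ^ 2
    obtain ⟨η, hη0, hη⟩ : ∃ η : ℝ≥0∞, 0 < η ∧ η ≠ ⊤ ∧ η + 4 * η < δ ^ 2 := by
      have h0 : 0 < min (δ ^ 2) 1 := lt_min (by positivity) one_pos
      have ht : min (δ ^ 2) 1 ≠ ⊤ := ne_top_of_le_ne_top ENNReal.one_ne_top (min_le_right _ _)
      refine ⟨min (δ ^ 2) 1 / 6, ENNReal.div_pos h0.ne' (by norm_num), ?_, ?_⟩
      · exact (ENNReal.div_lt_top ht (by norm_num)).ne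
      · have h1 : min (δ ^ 2) 1 / 6 + 4 * (min (δ ^ 2) 1 / 6) = (5 / 6) * min (δ ^ 2) 1 := by
          rw [div_eq_mul_inv, div_eq_mul_inv]
          ring
        rw [h1]
        refine lt_of_lt_of_le ?_ (min_le_left (δ ^ 2) 1)
        have h2 : (5 / 6 : ℝ≥0∞) < 1 := by
          rw [ENNReal.div_lt_iff (by norm_num) (by norm_num)]
          norm_num
        calc (5 / 6 : ℝ≥0∞) * min (δ ^ 2) 1 < 1 * min (δ ^ 2) 1 :=
              ENNReal.mul_lt_mul_left h0.ne' ht h2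
          _ = min (δ ^ 2) 1 := one_mul _
    obtain ⟨n0, hn0⟩ := hcau η hη0 hη.1
    refine ⟨n0, fun n hn n' hn' => ?_⟩
    rw [Lp.edist_toLp_toLp]
    have h1 : eLpNorm (f n - f n') 2 (jlf_nu N) ^ 2 < δ ^ 2 := by
      rw [jlf_sq]
      exact lt_of_le_of_lt (hn0 n hn n' hn') hη.2
    exact lt_of_not_ge fun h2 => absurd h1 (not_lt.2 (by gcongr))
  obtain ⟨Φ, hΦ⟩ := cauchySeq_tendsto_of_complete hcs
  have hΦs : StronglyMeasurable (Φ : Pt N → Hv m) := Lp.stronglyMeasurable Φ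
  have hΦL : MemLp (Φ : Pt N → Hv m) 2 (jlf_nu N) := Lp.memLp Φ
  have hlim : Tendsto (fun n => eLpNorm (f n - (Φ : Pt N → Hv m)) 2 (jlf_nu N)) atTop (𝓝 0) := by
    rw [← Lp.tendsto_Lp_iff_tendsto_eLpNorm'' f hfL (Φ : Pt N → Hv m) hΦL, Lp.toLp_coeFn]
    exact hΦ
  have hΦb : ∀ᵐ x, ‖(Φ : Pt N → Hv m) x‖ ≤ 1 := by
    have h1 := tendstoInMeasure_of_tendsto_eLpNorm (by norm_num)
      (fun n => (hfL n).aestronglyMeasurable) hΦL.aestronglyMeasurable hlim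
    obtain ⟨ns, -, hns⟩ := h1.exists_seq_tendsto_ae
    have h2 : ∀ᵐ x, ∀ n, ‖f n x‖ ≤ 1 := ae_all_iff.2 hfb
    filter_upwards [jlf_ac'.ae_le hns, h2] with x hx hx2
    exact le_of_tendsto hx.norm (Eventually.of_forall fun i => hx2 (ns i))
  refine ⟨(Φ : Pt N → Hv m), hΦs.aestronglyMeasurable, hΦb, fun r => ?_⟩
  -- the local convergence
  obtain ⟨M, hM⟩ : ∃ M : ℝ, ∀ x ∈ G.B 0 r, ‖x‖ ≤ M := by
    obtain ⟨M, hM⟩ := (G.isCompact_cB 0 r).isBounded.exists_norm_le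
    exact ⟨M, fun x hx => hM x (hBs r hx)⟩
  have hM0 : ∀ x ∈ G.B 0 r, ‖x‖ ≤ |M| := fun x hx => (hM x hx).trans (le_abs_self M)
  set c : ℝ≥0∞ := ENNReal.ofReal ((1 + |M|) ^ (-((N : ℝ) + 1))) with hcdef
  have hcpos : c ≠ 0 := by
    have h : 0 < (1 + |M|) ^ (-((N : ℝ) + 1)) := Real.rpow_pos_of_pos (by positivity) _
    rw [hcdef]
    simpa using h
  have hct : c ≠ ⊤ := ENNReal.ofReal_ne_top
  have hcw : ∀ x ∈ G.B 0 r, c ≤ jlf_w x := by
    intro x hx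
    refine ENNReal.ofReal_le_ofReal (Real.rpow_le_rpow_of_nonpos (by positivity) ?_ ?_)
    · linarith [hM0 x hx]
    · have : (0 : ℝ) ≤ N := Nat.cast_nonneg N
      linarith
  haveI : IsFiniteMeasure (volume.restrict (G.B 0 r)) := by
    refine ⟨?_⟩
    rw [Measure.restrict_apply_univ]
    exact lt_of_le_of_lt (measure_mono (hBs r)) (G.isCompact_cB 0 r).measure_lt_top
  have hΦLv : MemLp (Φ : Pt N → Hv m) 2 (volume.restrict (G.B 0 r)) :=
    MemLp.of_bound hΦs.aestronglyMeasurable 1 (ae_restrict_of_ae hΦb)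
  have hkey : ∀ n, ENNReal.ofReal (∫ x in G.B 0 r, ‖f n x - (Φ : Pt N → Hv m) x‖ ^ 2) ≤
      c⁻¹ * eLpNorm (f n - (Φ : Pt N → Hv m)) 2 (jlf_nu N) ^ 2 := by
    intro n
    have h0 := jlf_int ((hfLv n r).sub hΦLv)
    simp only [Pi.sub_apply] at h0
    rw [h0, jlf_sq]
    have h1 := jlf_low (hBm r) hcw (fun x => ‖f n x - (Φ : Pt N → Hv m) x‖ₑ ^ 2)
    have h2 : ∫⁻ x in G.B 0 r, ‖f n x - (Φ : Pt N → Hv m) x‖ₑ ^ 2 ∂(jlf_nu N) ≤
        ∫⁻ x, ‖f n x - (Φ : Pt N → Hv m) x‖ₑ ^ 2 ∂(jlf_nu N) := setLIntegral_le_lintegral _ _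
    have h3 := h1.trans h2
    calc ∫⁻ x in G.B 0 r, ‖f n x - (Φ : Pt N → Hv m) x‖ₑ ^ 2
        = c⁻¹ * (c * ∫⁻ x in G.B 0 r, ‖f n x - (Φ : Pt N → Hv m) x‖ₑ ^ 2) := by
          rw [← mul_assoc, ENNReal.inv_mul_cancel hcpos hct, one_mul]
      _ ≤ c⁻¹ * ∫⁻ x, ‖(f n - (Φ : Pt N → Hv m)) x‖ₑ ^ 2 ∂(jlf_nu N) := by
          gcongr
          exact h3
  have hlim2 : Tendsto (fun n => c⁻¹ * eLpNorm (f n - (Φ : Pt N → Hv m)) 2 (jlf_nu N) ^ 2) atTop
      (𝓝 0) := by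
    have h1 := ENNReal.Tendsto.const_mul (a := c⁻¹) (ENNReal.Tendsto.pow (n := 2) hlim) (Or.inr (ENNReal.inv_ne_top.2 hcpos))
    simpa using h1
  have hlim3 : Tendsto (fun n => ENNReal.ofReal
      (∫ x in G.B 0 r, ‖f n x - (Φ : Pt N → Hv m) x‖ ^ 2)) atTop (𝓝 0) :=
    tendsto_of_tendsto_of_tendsto_of_le_of_le tendsto_const_nhds hlim2 (fun n => bot_le) hkey
  have hlim4 := (ENNReal.tendsto_toReal ENNReal.zero_ne_top).comp hlim3
  refine hlim4.congr' ?_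
  filter_upwards [hfB r] with n hn
  simp only [Function.comp]
  rw [ENNReal.toReal_ofReal (integral_nonneg fun x => by positivity)]
  refine setIntegral_congr_fun (hBm r) fun x hx => ?_
  simp only [hn x hx]

end Pool.Agent.CG
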