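import Pool.Agent.CG.J.Tst
import Pool.Agent.CG.F.Basic
import Pool.Agent.CG.A.Ball

/-!
# CG-J-LimS: the limit is a solution

Along one subsequence `F n → F'` almost everywhere on the ball containing the support of the test
function; all three limits (weak gradient, both sides, and the equation) follow by dominated
convergence.
-/

set_option autoImplicit false

namespace Pool.Agent.CG

open MeasureTheory Set Filter Topology
open scoped ContDiff ENNReal

variable {N m : ℕ}

/-- `L²` convergence of bounded functions on a ball gives a subsequence converging a.e. -/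
theorem limS_sub (G : Carnot N m) (R : ℕ → ℝ) (hR : Tendsto R atTop atTop)
    (F : ℕ → Pt N → Hv m) (F' : Pt N → Hv m)
    (hm : ∀ n, AEStronglyMeasurable (F n) (volume.restrict (G.B 0 (R n))))
    (hF : ∀ n, ∀ᵐ x, x ∈ G.B 0 (R n) → ‖F n x‖ ≤ 1)
    (hFm : AEStronglyMeasurable F' volume) (hF' : ∀ᵐ x, ‖F' x‖ ≤ 1)
    (hl : ∀ r : ℝ, Tendsto (fun n => ∫ x in G.B 0 r, ‖F n x - F' x‖ ^ 2) atTop (𝓝 0)) (r : ℝ) :
    ∃ ns : ℕ → ℕ, Tendsto ns atTop atTop ∧ (∀ j, r ≤ R (ns j)) ∧
      ∀ᵐ x ∂(volume.restrict (G.B 0 r)), Tendsto (fun j => F (ns j) x) atTop (𝓝 (F' x)) := by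
  obtain ⟨n0, hn0⟩ := (hR.eventually_ge_atTop r).exists_forall_of_atTop
  have hsub : ∀ n, n0 ≤ n → G.B 0 r ⊆ G.B 0 (R n) := fun n hn x hx =>
    lt_of_lt_of_le (show G.ell (G.mul (-0) x) < r from hx) (hn0 n hn)
  set μ : Measure (Pt N) := volume.restrict (G.B 0 r) with hμ
  have : IsFiniteMeasure μ := ⟨by
    rw [hμ, Measure.restrict_apply_univ]
    exact G.vol_B_lt_top 0 r⟩
  set g : ℕ → Pt N → ℝ := fun n x => ‖F (n + n0) x - F' x‖ ^ 2 with hg
  have hmeas : ∀ n, AEStronglyMeasurable (fun x => F (n + n0) x - F' x) μ := fun n =>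
    ((hm (n + n0)).mono_measure (Measure.restrict_mono (hsub _ (Nat.le_add_left _ _)) le_rfl)).sub
      hFm.restrict
  have hgm : ∀ n, AEStronglyMeasurable (g n) μ := fun n => (hmeas n).norm.pow 2
  have hgb : ∀ n, ∀ᵐ x ∂μ, ‖g n x‖ ≤ 4 := fun n => by
    rw [hμ, ae_restrict_iff' (G.isOpen_B 0 r).measurableSet]
    filter_upwards [hF (n + n0), hF'] with x h1 h2 hx
    have h3 := h1 (hsub _ (Nat.le_add_left _ _) hx)
    have h4 : ‖F (n + n0) x - F' x‖ ≤ 2 := (norm_sub_le _ _).trans (by linarith)
    rw [hg, Real.norm_eq_abs, abs_of_nonneg (sq_nonneg _)]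
    nlinarith [norm_nonneg (F (n + n0) x - F' x)]
  have hgi : ∀ n, Integrable (g n) μ := fun n => Integrable.of_bound (hgm n) 4 (hgb n)
  have hlim : Tendsto (fun n => eLpNorm (g n - 0) 1 μ) atTop (𝓝 0) := by
    have h1 : ∀ n, eLpNorm (g n - 0) 1 μ = ENNReal.ofReal (∫ x, ‖F (n + n0) x - F' x‖ ^ 2 ∂μ) := by
      intro n
      rw [sub_zero, eLpNorm_one_eq_lintegral_enorm, ← ofReal_integral_norm_eq_lintegral_enorm (hgi n)]
      congr 1
      refine integral_congr_ae (Eventually.of_forall fun x => ?_)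
      simp only [hg, Real.norm_eq_abs]
      exact abs_of_nonneg (sq_nonneg _)
    simp_rw [h1]
    have h2 := (hl r).comp (tendsto_add_atTop_nat n0)
    have h3 := (ENNReal.continuous_ofReal.tendsto 0).comp h2
    rw [ENNReal.ofReal_zero] at h3
    exact h3
  have htm : TendstoInMeasure μ g atTop (0 : Pt N → ℝ) :=
    tendstoInMeasure_of_tendsto_eLpNorm one_ne_zero hgm aestronglyMeasurable_zero hlim
  obtain ⟨ks, hks, hae⟩ := htm.exists_seq_tendsto_ae
  refine ⟨fun j => ks j + n0, ?_, fun j => hn0 _ (Nat.le_add_left _ _), ?_⟩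
  · exact (tendsto_add_atTop_nat n0).comp hks.tendsto_atTop
  · filter_upwards [hae] with x hx
    rw [tendsto_iff_norm_sub_tendsto_zero]
    have h1 : Tendsto (fun j => Real.sqrt (g (ks j) x)) atTop (𝓝 (Real.sqrt 0)) :=
      (Real.continuous_sqrt.tendsto 0).comp hx
    rw [Real.sqrt_zero] at h1
    refine h1.congr fun j => ?_
    simp only [hg]
    exact Real.sqrt_sq (norm_nonneg _)

theorem lim_sol (G : Carnot N m) {a b L : ℝ} (ha0 : 0 ≤ a) (ha : a < 1) (hb : 0 ≤ b) (hL : 1 ≤ L)
    (R : ℕ → ℝ) (hR : Tendsto R atTop atTop) (A : ℕ → Hv m → Hv m) (A' : Hv m → Hv m)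
    (hA : ∀ n, Nrm a b L (A n)) (hA' : Nrm a b L A')
    (hAA : TendstoUniformlyOn A A' atTop (Metric.closedBall 0 1)) (v : ℕ → Pt N → ℝ)
    (F : ℕ → Pt N → Hv m) (hS : ∀ n, Sol G 2 (G.B 0 (R n)) (A n) (v n) (F n))
    (hF : ∀ n, ∀ᵐ x, x ∈ G.B 0 (R n) → ‖F n x‖ ≤ 1) (u' : Pt N → ℝ) (hu' : Continuous u')
    (hv : ∀ r : ℝ, TendstoUniformlyOn v u' atTop {y | G.di 0 y ≤ r}) (F' : Pt N → Hv m)
    (hFm : AEStronglyMeasurable F' volume) (hF' : ∀ᵐ x, ‖F' x‖ ≤ 1)
    (hl : ∀ r : ℝ, Tendsto (fun n => ∫ x in G.B 0 r, ‖F n x - F' x‖ ^ 2) atTop (𝓝 0)) :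
    Sol G 2 univ A' u' F' := by
  have hcA : ∀ {B : Hv m → Hv m}, Nrm a b L B → Continuous B := by
    intro B hB
    obtain ⟨W, hW, -, hAA'⟩ := hB
    exact hAA'.continuous ha hb (by linarith) hW
  have hA'c : Continuous A' := hcA hA'
  have hm : ∀ n, AEStronglyMeasurable (F n) (volume.restrict (G.B 0 (R n))) := fun n =>
    LqLoc.aesm (G.isOpen_B 0 (R n)) (hS n).lqg
  have hvm : ∀ n, AEStronglyMeasurable (v n) (volume.restrict (G.B 0 (R n))) := fun n =>
    LqLoc.aesm (G.isOpen_B 0 (R n)) (hS n).lq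
  -- data for a test function
  have key : ∀ φ : Pt N → ℝ, Test univ φ → ∃ r : ℝ, Test (G.B 0 r) φ := by
    intro φ hφ
    obtain ⟨r, -, hr⟩ := G.subset_B_of_isCompact hφ.cpt
    exact ⟨r, hφ.smooth, hφ.cpt, hr⟩
  have hzero : ∀ {r : ℝ} {φ : Pt N → ℝ}, Test (G.B 0 r) φ → ∀ x, x ∉ G.B 0 r → φ x = 0 := by
    intro r φ hφ x hx
    by_contra h
    exact hx (hφ.sub (subset_tsupport _ h))
  have hsubB : ∀ {r s : ℝ}, r ≤ s → G.B 0 r ⊆ G.B 0 s := fun {r s} h x hx =>
    lt_of_lt_of_le (show G.ell (G.mul (-0) x) < r from hx) h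
  have hmono : ∀ {r s : ℝ} {φ : Pt N → ℝ}, r ≤ s → Test (G.B 0 r) φ → Test (G.B 0 s) φ :=
    fun h hφ => ⟨hφ.smooth, hφ.cpt, hφ.sub.trans (hsubB h)⟩
  have hXint : ∀ {r : ℝ} {φ : Pt N → ℝ}, Test (G.B 0 r) φ →
      Integrable φ (volume.restrict (G.B 0 r)) := fun hφ =>
    (hφ.smooth.continuous.integrable_of_hasCompactSupport hφ.cpt).restrict
  refine ⟨⟨?_, ?_, ?_⟩, ?_⟩
  · intro K hK _
    have : IsFiniteMeasure (volume.restrict K) := ⟨by
      rw [Measure.restrict_apply_univ]
      exact hK.measure_lt_top⟩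
    obtain ⟨C, hC⟩ := hK.exists_bound_of_continuousOn hu'.continuousOn
    refine MemLp.of_bound hu'.aestronglyMeasurable C ?_
    rw [ae_restrict_iff' hK.measurableSet]
    exact Eventually.of_forall hC
  · intro K hK _
    have : IsFiniteMeasure (volume.restrict K) := ⟨by
      rw [Measure.restrict_apply_univ]
      exact hK.measure_lt_top⟩
    exact MemLp.of_bound hFm.restrict 1 (ae_restrict_of_ae hF')
  · intro φ hφ0 k
    obtain ⟨r, hφ⟩ := key φ hφ0
    obtain ⟨ns, hns, hnR, hae⟩ := limS_sub G R hR F F' hm hF hFm hF' hl r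
    have hX := G.test_X hφ k
    -- left side
    obtain ⟨C, hC⟩ := (G.isCompact_cB 0 r).exists_bound_of_continuousOn hu'.continuousOn
    have hL1 : Tendsto (fun j => ∫ x in G.B 0 r, v (ns j) x * G.X k φ x) atTop
        (𝓝 (∫ x in G.B 0 r, u' x * G.X k φ x)) := by
      refine tendsto_integral_filter_of_dominated_convergence
        (fun x => (C + 1) * ‖G.X k φ x‖) ?_ ?_ ?_ ?_
      · refine Eventually.of_forall fun j => ?_
        exact ((hvm (ns j)).mono_measure (Measure.restrict_mono (hsubB (hnR j)) le_rfl)).mul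
          hX.smooth.continuous.aestronglyMeasurable
      · have h1 := hns.eventually (Metric.tendstoUniformlyOn_iff.1 (hv r) 1 one_pos)
        filter_upwards [h1] with j hj
        rw [ae_restrict_iff' (G.isOpen_B 0 r).measurableSet]
        refine Eventually.of_forall fun x hx => ?_
        have hx' : x ∈ {y | G.di 0 y ≤ r} := show G.di 0 x ≤ r from le_of_lt (G.mem_B.1 hx)
        have h2 := hj x hx'
        have h3 := hC x hx'
        rw [norm_mul]
        refine mul_le_mul_of_nonneg_right ?_ (norm_nonneg _)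
        rw [dist_comm, dist_eq_norm] at h2
        calc ‖v (ns j) x‖ = ‖(v (ns j) x - u' x) + u' x‖ := by rw [sub_add_cancel]
          _ ≤ ‖v (ns j) x - u' x‖ + ‖u' x‖ := norm_add_le _ _
          _ ≤ C + 1 := by linarith
      · exact (hXint hX).norm.const_mul _
      · rw [ae_restrict_iff' (G.isOpen_B 0 r).measurableSet]
        refine Eventually.of_forall fun x hx => ?_
        have hx' : x ∈ {y | G.di 0 y ≤ r} := show G.di 0 x ≤ r from le_of_lt (G.mem_B.1 hx)
        exact (((hv r).tendsto_at hx').comp hns).mul_const _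
    have hL2 : Tendsto (fun j => ∫ x in G.B 0 r, F (ns j) x k * φ x) atTop
        (𝓝 (∫ x in G.B 0 r, F' x k * φ x)) := by
      refine tendsto_integral_filter_of_dominated_convergence (fun x => ‖φ x‖) ?_ ?_ ?_ ?_
      · refine Eventually.of_forall fun j => ?_
        have h1 := ((hm (ns j)).mono_measure (Measure.restrict_mono (hsubB (hnR j)) le_rfl))
        have h2 : AEStronglyMeasurable (fun x => F (ns j) x k) (volume.restrict (G.B 0 r)) :=
          (EuclideanSpace.proj k : Hv m →L[ℝ] ℝ).continuous.comp_aestronglyMeasurable h1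
        exact h2.mul hφ.smooth.continuous.aestronglyMeasurable
      · refine Eventually.of_forall fun j => ?_
        rw [ae_restrict_iff' (G.isOpen_B 0 r).measurableSet]
        filter_upwards [hF (ns j)] with x hx hxr
        have h1 := hx (hsubB (hnR j) hxr)
        rw [norm_mul]
        have h2 : ‖F (ns j) x k‖ ≤ 1 := (PiLp.norm_apply_le (F (ns j) x) k).trans h1
        nlinarith [norm_nonneg (φ x)]
      · exact (hXint hφ).norm
      · filter_upwards [hae] with x hx
        have h2 := ((EuclideanSpace.proj k : Hv m →L[ℝ] ℝ).continuous.tendsto (F' x)).comp hx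
        exact Tendsto.mul_const _ h2
    have he : ∀ j, ∫ x in G.B 0 r, v (ns j) x * G.X k φ x
        = - ∫ x in G.B 0 r, F (ns j) x k * φ x := by
      intro j
      have h1 := (hS (ns j)).weak φ (hmono (hnR j) hφ) k
      rw [setIntegral_eq_integral_of_forall_compl_eq_zero,
        setIntegral_eq_integral_of_forall_compl_eq_zero, h1]
      · intro x hx
        rw [hzero hφ x hx, mul_zero]
      · intro x hx
        rw [hzero hX x hx, mul_zero]
    simp_rw [he] at hL1
    have h3 := tendsto_nhds_unique hL1 hL2.neg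
    rw [setIntegral_eq_integral_of_forall_compl_eq_zero,
        setIntegral_eq_integral_of_forall_compl_eq_zero] at h3
    · exact h3
    · intro x hx
      rw [hzero hφ x hx, mul_zero]
    · intro x hx
      rw [hzero hX x hx, mul_zero]
  · intro φ hφ0
    obtain ⟨r, hφ⟩ := key φ hφ0
    obtain ⟨ns, hns, hnR, hae⟩ := limS_sub G R hR F F' hm hF hFm hF' hl r
    have hgz : ∀ x, x ∉ G.B 0 r → G.grad φ x = 0 := by
      intro x hx
      ext k
      exact hzero (G.test_X hφ k) x hx
    have hgc : Continuous (G.grad φ) := (G.smooth_grad hφ.smooth).continuous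
    have hgi : Integrable (G.grad φ) volume := by
      refine hgc.integrable_of_hasCompactSupport ?_
      refine HasCompactSupport.intro hφ.cpt fun x hx => ?_
      ext k
      have h1 : Test (tsupport φ) φ := ⟨hφ.smooth, hφ.cpt, subset_rfl⟩
      have h2 := G.test_X h1 k
      show G.X k φ x = 0
      by_contra h
      exact hx (h2.sub (subset_tsupport _ h))
    obtain ⟨C, hC⟩ := (isCompact_closedBall (0 : Hv m) 1).exists_bound_of_continuousOn
      hA'c.continuousOn
    have haeb : ∀ᵐ x ∂(volume.restrict (G.B 0 r)), ∀ j, ‖F (ns j) x‖ ≤ 1 := by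
      rw [ae_all_iff]
      intro j
      rw [ae_restrict_iff' (G.isOpen_B 0 r).measurableSet]
      filter_upwards [hF (ns j)] with x hx hxr
      exact hx (hsubB (hnR j) hxr)
    have hL3 : Tendsto (fun j => ∫ x in G.B 0 r, inner ℝ (A (ns j) (F (ns j) x)) (G.grad φ x)) atTop
        (𝓝 (∫ x in G.B 0 r, inner ℝ (A' (F' x)) (G.grad φ x))) := by
      refine tendsto_integral_filter_of_dominated_convergence
        (fun x => (C + 1) * ‖G.grad φ x‖) ?_ ?_ ?_ ?_
      · refine Eventually.of_forall fun j => ?_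
        have h1 := ((hm (ns j)).mono_measure (Measure.restrict_mono (hsubB (hnR j)) le_rfl))
        exact ((hcA (hA (ns j))).comp_aestronglyMeasurable h1).inner hgc.aestronglyMeasurable
      · have h1 := hns.eventually (Metric.tendstoUniformlyOn_iff.1 hAA 1 one_pos)
        filter_upwards [h1] with j hj
        filter_upwards [haeb] with x hx
        have hx' : F (ns j) x ∈ Metric.closedBall (0 : Hv m) 1 := by
          rw [mem_closedBall_zero_iff]
          exact hx j
        have h2 := hj _ hx'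
        have h3 := hC _ hx'
        refine (norm_inner_le_norm _ _).trans ?_
        refine mul_le_mul_of_nonneg_right ?_ (norm_nonneg _)
        rw [dist_comm, dist_eq_norm] at h2
        calc ‖A (ns j) (F (ns j) x)‖
            = ‖(A (ns j) (F (ns j) x) - A' (F (ns j) x)) + A' (F (ns j) x)‖ := by
              rw [sub_add_cancel]
          _ ≤ ‖A (ns j) (F (ns j) x) - A' (F (ns j) x)‖ + ‖A' (F (ns j) x)‖ := norm_add_le _ _
          _ ≤ C + 1 := by linarith
      · exact (hgi.norm.const_mul _).restrict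
      · filter_upwards [hae, haeb] with x hx hb'
        have h1 : Tendsto (fun j => A (ns j) (F (ns j) x)) atTop (𝓝 (A' (F' x))) := by
          have h2 : Tendsto (fun j => A' (F (ns j) x)) atTop (𝓝 (A' (F' x))) :=
            (hA'c.tendsto _).comp hx
          have h3 : Tendsto (fun j => A (ns j) (F (ns j) x) - A' (F (ns j) x)) atTop (𝓝 0) := by
            rw [Metric.tendsto_nhds]
            intro ε hε
            have h4 := hns.eventually (Metric.tendstoUniformlyOn_iff.1 hAA ε hε)
            filter_upwards [h4] with j hj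
            have hx' : F (ns j) x ∈ Metric.closedBall (0 : Hv m) 1 := by
              rw [mem_closedBall_zero_iff]
              exact hb' j
            have h5 := hj _ hx'
            rwa [dist_comm, dist_eq_norm, ← dist_zero_right] at h5
          have h6 := h3.add h2
          rw [zero_add] at h6
          refine h6.congr fun j => ?_
          rw [sub_add_cancel]
        exact h1.inner tendsto_const_nhds
    have he : ∀ j, ∫ x in G.B 0 r, inner ℝ (A (ns j) (F (ns j) x)) (G.grad φ x) = 0 := by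
      intro j
      rw [setIntegral_eq_integral_of_forall_compl_eq_zero]
      · exact (hS (ns j)).eqn φ (hmono (hnR j) hφ)
      · intro x hx
        rw [hgz x hx, inner_zero_right]
    simp_rw [he] at hL3
    have h3 := tendsto_nhds_unique hL3 tendsto_const_nhds
    rw [setIntegral_eq_integral_of_forall_compl_eq_zero] at h3
    · exact h3
    · intro x hx
      rw [hgz x hx, inner_zero_right]

end Pool.Agent.CG
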