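import Pool.Agent.CG.Cls
import Pool.Agent.CG.J.Arz

/-!
# CG-J-SubU: locally uniformly convergent subsequence of normalised solutions

For `n` with `0 < R n` apply `HW.lip` (x = 0, q = 2, L = 1): representative `w n`, continuous on `B 0 (R n)`, a.e. equal to `u n` there, 1-Lipschitz for `di` on `B 0 (R n / 3)`;
`v n x := w n x - w n 0`. HW.congr + HW.add_const; the equation does not involve u. For `R n ≤ 0` the ball is empty (`di_nonneg`), take `v n := u n`.
`arzela` (X = Pt N, E = ℝ): for fixed x and n large `x` and all `y` with `di x y < 1` are in `B 0 (R n / 3)`, so `|v n x| ≤ di 0 x` and `|v n y - v n x| ≤ di y x`; `di y x → 0` as `y → x` (continuous_di, di_self).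
`{y | G.di 0 y ≤ r}` is compact (isCompact_cB).
-/

set_option autoImplicit false

namespace Pool.Agent.CG

open MeasureTheory Set Filter Topology
open scoped ContDiff ENNReal

variable {N m : ℕ}

private theorem norm_rep (G : Carnot N m) (A : Hv m → Hv m) (u : Pt N → ℝ) (F : Pt N → Hv m)
    (R : ℝ) (hS : Sol G 2 (G.B 0 R) A u F) (hF : ∀ᵐ x, x ∈ G.B 0 R → ‖F x‖ ≤ 1) :
    ∃ v : Pt N → ℝ, Sol G 2 (G.B 0 R) A v F ∧
      (0 < R → (∀ y ∈ G.B 0 (R / 3), ∀ z ∈ G.B 0 (R / 3), |v y - v z| ≤ G.di y z) ∧ v 0 = 0) := by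
  by_cases hR : 0 < R
  · obtain ⟨w, -, h2, h3⟩ := HW.lip hR (by norm_num) hS.toHW zero_le_one hF
    have h4 : HW G 2 (G.B 0 R) w F :=
      HW.congr (G.isOpen_B 0 R) hS.toHW h2 (Eventually.of_forall fun x _ => rfl)
    have h5 : HW G 2 (G.B 0 R) (fun x => w x + -(w 0)) F := HW.add_const (by norm_num) _ h4
    refine ⟨fun x => w x + -(w 0), ⟨h5, hS.eqn⟩, fun _ => ⟨?_, ?_⟩⟩
    · intro y hy z hz
      have h6 := h3 y hy z hz
      rw [one_mul] at h6
      have h7 : w y + -(w 0) - (w z + -(w 0)) = w y - w z := by ring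
      rw [h7]
      exact h6
    · exact add_neg_cancel (w 0)
  · exact ⟨u, hS, fun h => absurd h hR⟩

theorem sub_u (G : Carnot N m) (A : ℕ → Hv m → Hv m) (u : ℕ → Pt N → ℝ) (F : ℕ → Pt N → Hv m)
    (R : ℕ → ℝ) (hR : Tendsto R atTop atTop) (hS : ∀ n, Sol G 2 (G.B 0 (R n)) (A n) (u n) (F n))
    (hF : ∀ n, ∀ᵐ x, x ∈ G.B 0 (R n) → ‖F n x‖ ≤ 1) :
    ∃ v : ℕ → Pt N → ℝ, (∀ n, Sol G 2 (G.B 0 (R n)) (A n) (v n) (F n)) ∧
      ∃ s : ℕ → ℕ, StrictMono s ∧ ∃ u' : Pt N → ℝ, Continuous u' ∧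
        ∀ r : ℝ, TendstoUniformlyOn (fun n => v (s n)) u' atTop {y | G.di 0 y ≤ r} := by
  choose v hv1 hv2 using fun n => norm_rep G (A n) (u n) (F n) (R n) (hS n) (hF n)
  refine ⟨v, hv1, ?_⟩
  have hb : ∀ x : Pt N, ∃ C : ℝ, ∀ᶠ n in atTop, ‖v n x‖ ≤ C := by
    intro x
    refine ⟨G.di x 0, ?_⟩
    filter_upwards [hR.eventually_gt_atTop (3 * (G.di 0 x + 1))] with n hn
    have h0 := G.di_nonneg 0 x
    have hRn : 0 < R n := by linarith
    obtain ⟨h1, h2⟩ := hv2 n hRn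
    have hx : x ∈ G.B 0 (R n / 3) := by
      rw [G.mem_B]
      linarith
    have h0' : (0 : Pt N) ∈ G.B 0 (R n / 3) := by
      rw [G.mem_B, G.di_self]
      linarith
    have h3 := h1 x hx 0 h0'
    rw [h2, sub_zero] at h3
    exact h3
  have he : ∀ x : Pt N, ∀ ε : ℝ, 0 < ε → ∃ δ : ℝ, 0 < δ ∧
      ∀ᶠ n in atTop, ∀ y, dist y x < δ → ‖v n y - v n x‖ ≤ ε := by
    intro x ε hε
    have hc : Continuous (fun y => G.di y x) :=
      G.continuous_di.comp (continuous_id.prodMk continuous_const)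
    have hpos : 0 < min ε 1 := lt_min hε one_pos
    obtain ⟨δ, hδ, h1⟩ := Metric.continuous_iff.1 hc x (min ε 1) hpos
    refine ⟨δ, hδ, ?_⟩
    filter_upwards [hR.eventually_gt_atTop (3 * (G.di 0 x + 1))] with n hn y hy
    have h0 := G.di_nonneg 0 x
    have hRn : 0 < R n := by linarith
    obtain ⟨h2, -⟩ := hv2 n hRn
    have h3 := h1 y hy
    rw [G.di_self, Real.dist_eq, sub_zero, abs_of_nonneg (G.di_nonneg y x)] at h3
    have h4 : G.di y x < ε := lt_of_lt_of_le h3 (min_le_left _ _)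
    have h5 : G.di y x < 1 := lt_of_lt_of_le h3 (min_le_right _ _)
    have hx : x ∈ G.B 0 (R n / 3) := by
      rw [G.mem_B]
      linarith
    have hy' : y ∈ G.B 0 (R n / 3) := by
      rw [G.mem_B]
      have h6 := G.di_triangle 0 x y
      have h7 := G.di_comm x y
      linarith
    have h8 := h2 y hy' x hx
    rw [Real.norm_eq_abs]
    linarith
  obtain ⟨s, hs, g, hg, hK⟩ := arzela v hb he
  exact ⟨s, hs, g, hg, fun r => hK _ (G.isCompact_cB 0 r)⟩

end Pool.Agent.CG
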