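import Pool.Agent.CG.J.LimA
import Pool.Agent.CG.J.Cau
import Pool.Agent.CG.J.SubU
import Pool.Agent.CG.J.LimF
import Pool.Agent.CG.J.LimS

/-!
# CG-J-Fin: assembly of the compactness theorem (proved from the other J modules)
-/

set_option autoImplicit false

namespace Pool.Agent.CG

open MeasureTheory Set Filter Topology
open scoped ContDiff ENNReal

variable {N m : ℕ}

private theorem sol_mono {G : Carnot N m} {q : ℝ≥0∞} {Ω Ω' : Set (Pt N)} {A : Hv m → Hv m}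
    {u : Pt N → ℝ} {F : Pt N → Hv m} (h : Sol G q Ω A u F) (hs : Ω' ⊆ Ω) : Sol G q Ω' A u F :=
  ⟨HW.mono h.toHW hs, fun φ hφ => h.eqn φ ⟨hφ.smooth, hφ.cpt, hφ.sub.trans hs⟩⟩

theorem compactness' (G : Carnot N m) {a b L : ℝ} (ha0 : 0 ≤ a) (ha : a < 1) (hb : 0 ≤ b) (hL : 1 ≤ L)
    (A : ℕ → Hv m → Hv m) (u : ℕ → Pt N → ℝ) (F : ℕ → Pt N → Hv m) (hA : ∀ n, Nrm a b L (A n))
    (R : ℕ → ℝ) (hR : Tendsto R atTop atTop) (hS : ∀ n, Sol G 2 (G.B 0 (R n)) (A n) (u n) (F n))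
    (hF : ∀ n, ∀ᵐ x, x ∈ G.B 0 (R n) → ‖F n x‖ ≤ 1) :
    ∃ s : ℕ → ℕ, StrictMono s ∧ ∃ (A' : Hv m → Hv m) (u' : Pt N → ℝ) (F' : Pt N → Hv m),
      Nrm a b L A' ∧ Sol G 2 univ A' u' F' ∧ (∀ᵐ x, ‖F' x‖ ≤ 1) ∧
      ∀ r : ℝ, Tendsto (fun n => ∫ x in G.B 0 r, ‖F (s n) x - F' x‖ ^ 2) atTop (𝓝 0) := by
  have hcont : ∀ n, Continuous (A n) := by
    intro n
    obtain ⟨W, hW, -, hAW⟩ := hA n
    exact hAW.continuous ha hb (by linarith) hW
  -- normalise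
  have hA1 : ∀ n, Nrm a b L (fun ξ => A n ξ - A n 0) := by
    intro n
    obtain ⟨W, hW, hW1, hAW⟩ := hA n
    refine ⟨W, hW, hW1, ⟨fun ξ ζ => ?_, fun ξ ζ => ?_⟩⟩
    · simpa using hAW.mono ξ ζ
    · simpa using hAW.lip ξ ζ
  have hS1 : ∀ n, Sol G 2 (G.B 0 (R n)) (fun ξ => A n ξ - A n 0) (u n) (F n) := fun n =>
    (hS n).sub_const (G.isOpen_B 0 (R n)) (hcont n) (hF n) (A n 0)
  obtain ⟨s1, hs1, A', hA', hlim⟩ := nrm_subseq ha0 ha hb hL (fun n ξ => A n ξ - A n 0) hA1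
    (fun n => by simp)
  obtain ⟨v, hv, s2, hs2, u', hu', hvlim⟩ := sub_u G (fun n ξ => A (s1 n) ξ - A (s1 n) 0)
    (fun n => u (s1 n)) (fun n => F (s1 n)) (fun n => R (s1 n)) (hR.comp hs1.tendsto_atTop)
    (fun n => hS1 (s1 n)) (fun n => hF (s1 n))
  set s : ℕ → ℕ := fun n => s1 (s2 n) with hs
  have hsm : StrictMono s := hs1.comp hs2
  set B : ℕ → Hv m → Hv m := fun n ξ => A (s n) ξ - A (s n) 0 with hB
  have hBlim : TendstoUniformlyOn B A' atTop (Metric.closedBall 0 1) := by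
    intro U hU
    exact hs2.tendsto_atTop.eventually (hlim 1 U hU)
  have hRs : Tendsto (fun n => R (s n)) atTop atTop := hR.comp hsm.tendsto_atTop
  have hSs : ∀ n, Sol G 2 (G.B 0 (R (s n))) (B n) (v (s2 n)) (F (s n)) := fun n => hv (s2 n)
  -- Cauchy
  have hc : ∀ r ε : ℝ, 0 < r → 0 < ε → ∃ n0 : ℕ, ∀ n ≥ n0, ∀ n' ≥ n0,
      ∫ x in G.B 0 r, ‖F (s n) x - F (s n') x‖ ^ 2 ≤ ε := by
    intro r ε hr hε
    obtain ⟨δ, hδ, hest⟩ := cauchy_l2 G ha0 ha hb hL hr hε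
    have e1 : ∀ᶠ n in atTop, ∀ ξ ∈ Metric.closedBall (0 : Hv m) 1, dist (A' ξ) (B n ξ) < δ / 2 :=
      (Metric.tendstoUniformlyOn_iff.mp hBlim) (δ / 2) (by positivity)
    have e2 : ∀ᶠ n in atTop, ∀ x ∈ {y | G.di 0 y ≤ r + 1}, dist (u' x) (v (s2 n) x) < δ / 2 :=
      (Metric.tendstoUniformlyOn_iff.mp (hvlim (r + 1))) (δ / 2) (by positivity)
    have e3 : ∀ᶠ n in atTop, r + 1 ≤ R (s n) := hRs.eventually_ge_atTop (r + 1)
    obtain ⟨n0, hn0⟩ := eventually_atTop.mp (e1.and (e2.and e3))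
    refine ⟨n0, fun n hn n' hn' => ?_⟩
    obtain ⟨a1, a2, a3⟩ := hn0 n hn
    obtain ⟨b1, b2, b3⟩ := hn0 n' hn'
    have hsub : ∀ {ρ : ℝ}, r + 1 ≤ ρ → G.B 0 (r + 1) ⊆ G.B 0 ρ := fun h x hx =>
      lt_of_lt_of_le (Carnot.mem_B G |>.mp hx) h
    refine hest (B n) (B n') (v (s2 n)) (v (s2 n')) (F (s n)) (F (s n')) (hA1 (s n)) (hA1 (s n'))
      (by simp [hB]) (by simp [hB]) (sol_mono (hSs n) (hsub a3)) (sol_mono (hSs n') (hsub b3))
      ?_ ?_ ?_ ?_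
    · filter_upwards [hF (s n)] with x hx hxB using hx (hsub a3 hxB)
    · filter_upwards [hF (s n')] with x hx hxB using hx (hsub b3 hxB)
    · intro ξ hξ
      have h1 := a1 ξ (by simpa using hξ)
      have h2 := b1 ξ (by simpa using hξ)
      rw [← dist_eq_norm]
      have := dist_triangle_left (B n ξ) (B n' ξ) (A' ξ)
      linarith
    · refine Eventually.of_forall fun x hx => ?_
      have hx' : G.di 0 x ≤ r + 1 := (Carnot.mem_B G |>.mp hx).le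
      have h1 := a2 x hx'
      have h2 := b2 x hx'
      rw [← Real.dist_eq]
      have := dist_triangle_left (v (s2 n) x) (v (s2 n') x) (u' x)
      linarith
  obtain ⟨F', hFm, hFb, hFl⟩ := lim_F G (fun n => R (s n)) hRs (fun n => F (s n))
    (fun n => LqLoc.aesm (G.isOpen_B 0 _) (hSs n).lqg) (fun n => hF (s n)) hc
  refine ⟨s, hsm, A', u', F', hA', ?_, hFb, hFl⟩
  exact lim_sol G ha0 ha hb hL (fun n => R (s n)) hRs B A' (fun n => hA1 (s n)) hA' hBlim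
    (fun n => v (s2 n)) (fun n => F (s n)) hSs (fun n => hF (s n)) u' hu' hvlim F' hFm hFb hFl

end Pool.Agent.CG
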