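import Pool.Agent.CG.Cls
import Pool.Agent.CG.J.Arz

/-!
# CG-J-LimA: compactness of the normalised structure functions

`nrm_lip`: uniform modulus of continuity of normalised structure functions.
`nrm_subseq`: Arzela-Ascoli for `w n y := log (W n (exp y))` and for `A n`, then limits of the
inequalities.
-/

set_option autoImplicit false

namespace Pool.Agent.CG

open MeasureTheory Set Filter Topology

variable {m : ℕ}

theorem nrm_lip {a b L : ℝ} (ha0 : 0 ≤ a) (ha : a < 1) (hb : 0 ≤ b) (hL : 1 ≤ L) {A : Hv m → Hv m}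
    (hA : Nrm a b L A) {M : ℝ} (hM : 1 ≤ M) {ξ ζ : Hv m} (hξ : ‖ξ‖ ≤ M) (hζ : ‖ζ‖ ≤ M) :
    ‖A ξ - A ζ‖ ≤ 2 * L * ‖ξ - ζ‖ ^ (1 - a) + L * M ^ b * ‖ξ - ζ‖ := by
  have hL0 : 0 ≤ L := by linarith
  have hd : 0 ≤ ‖ξ - ζ‖ := norm_nonneg _
  have hd1 : 0 ≤ ‖ξ - ζ‖ ^ (1 - a) := Real.rpow_nonneg hd _
  have hM0 : 0 ≤ M ^ b := Real.rpow_nonneg (by linarith) _
  by_cases h1 : ‖ξ‖ ≤ 1 ∧ ‖ζ‖ ≤ 1
  · have h2 := (nrm_min ha0 ha hb hL0 hA h1.1 h1.2).2
    have h3 : (2 : ℝ) ^ a ≤ 2 := by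
      calc (2 : ℝ) ^ a ≤ 2 ^ (1 : ℝ) := Real.rpow_le_rpow_of_exponent_le (by norm_num) ha.le
        _ = 2 := Real.rpow_one 2
    have h4 : L * 2 ^ a * ‖ξ - ζ‖ ^ (1 - a) ≤ 2 * L * ‖ξ - ζ‖ ^ (1 - a) := by
      refine mul_le_mul_of_nonneg_right ?_ hd1
      nlinarith
    have h5 : 0 ≤ L * M ^ b * ‖ξ - ζ‖ := by positivity
    linarith
  · obtain ⟨W, hW, hW1, hAA⟩ := hA
    have hm1 : 1 ≤ max ‖ξ‖ ‖ζ‖ := by
      by_contra hc
      push Not at hc
      exact h1 ⟨(le_max_left _ _).trans hc.le, (le_max_right _ _).trans hc.le⟩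
    have hmM : max ‖ξ‖ ‖ζ‖ ≤ M := max_le hξ hζ
    have h2 := hW.hi 1 _ one_pos hm1
    rw [div_one, hW1, mul_one] at h2
    have h3 : W (max ‖ξ‖ ‖ζ‖) ≤ M ^ b :=
      h2.trans (Real.rpow_le_rpow (by linarith) hmM hb)
    have h4 := hAA.lip ξ ζ
    have h5 : L * W (max ‖ξ‖ ‖ζ‖) * ‖ξ - ζ‖ ≤ L * M ^ b * ‖ξ - ζ‖ :=
      mul_le_mul_of_nonneg_right (mul_le_mul_of_nonneg_left h3 hL0) hd
    have h6 : 0 ≤ 2 * L * ‖ξ - ζ‖ ^ (1 - a) := by positivity
    linarith

private theorem wt_log {a b : ℝ} (ha : 0 ≤ a) (hb : 0 ≤ b) {W : ℝ → ℝ} (hW : Wt a b W) (x y : ℝ) :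
    |Real.log (W (Real.exp y)) - Real.log (W (Real.exp x))| ≤ max a b * |y - x| := by
  have key : ∀ x y : ℝ, x ≤ y →
      -(a * (y - x)) ≤ Real.log (W (Real.exp y)) - Real.log (W (Real.exp x)) ∧
      Real.log (W (Real.exp y)) - Real.log (W (Real.exp x)) ≤ b * (y - x) := by
    intro x y hxy
    have hx := Real.exp_pos x
    have hle : Real.exp x ≤ Real.exp y := Real.exp_le_exp.2 hxy
    have hWx := hW.pos _ hx
    have hWy := hW.pos _ (Real.exp_pos y)
    have hq : Real.exp y / Real.exp x = Real.exp (y - x) := (Real.exp_sub y x).symm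
    have h1 := hW.lo _ _ hx hle
    have h2 := hW.hi _ _ hx hle
    rw [hq, ← Real.exp_mul] at h1 h2
    have h3 := Real.log_le_log (by positivity) h1
    have h4 := Real.log_le_log hWy h2
    rw [Real.log_mul (Real.exp_pos _).ne' hWx.ne', Real.log_exp] at h3 h4
    constructor <;> linarith
  have hm0 : a ≤ max a b := le_max_left _ _
  have hm1 : b ≤ max a b := le_max_right _ _
  rcases le_total x y with h | h
  · obtain ⟨h1, h2⟩ := key x y h
    have h3 : 0 ≤ y - x := by linarith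
    rw [abs_of_nonneg h3, abs_le]
    constructor
    · nlinarith
    · nlinarith
  · obtain ⟨h1, h2⟩ := key y x h
    have h3 : 0 ≤ x - y := by linarith
    rw [abs_sub_comm y x, abs_of_nonneg h3, abs_le]
    constructor
    · nlinarith
    · nlinarith

theorem nrm_subseq {a b L : ℝ} (ha0 : 0 ≤ a) (ha : a < 1) (hb : 0 ≤ b) (hL : 1 ≤ L)
    (A : ℕ → Hv m → Hv m) (hA : ∀ n, Nrm a b L (A n)) (h0 : ∀ n, A n 0 = 0) :
    ∃ s : ℕ → ℕ, StrictMono s ∧ ∃ A' : Hv m → Hv m, Nrm a b L A' ∧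
      ∀ M : ℝ, TendstoUniformlyOn (fun n => A (s n)) A' atTop (Metric.closedBall 0 M) := by
  choose W hW hW1 hAA using hA
  have hL0 : 0 ≤ L := by linarith
  have hmab : 0 ≤ max a b := ha0.trans (le_max_left _ _)
  -- the weights
  obtain ⟨s1, hs1, g, hg, hgK⟩ := arzela (X := ℝ) (E := ℝ)
    (fun n y => Real.log (W n (Real.exp y))) (by
      intro x
      refine ⟨max a b * |x|, Eventually.of_forall fun n => ?_⟩
      have h1 := wt_log ha0 hb (hW n) 0 x
      rw [Real.exp_zero, hW1 n, Real.log_one, sub_zero, sub_zero] at h1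
      exact h1) (by
      intro x ε hε
      refine ⟨ε / (max a b + 1), by positivity, Eventually.of_forall fun n y hy => ?_⟩
      have h1 := wt_log ha0 hb (hW n) x y
      rw [Real.norm_eq_abs]
      refine h1.trans ?_
      rw [Real.dist_eq] at hy
      have h2 : (max a b + 1) * |y - x| ≤ ε := by
        have h3 := (lt_div_iff₀ (by positivity)).1 hy
        linarith
      have h4 : 0 ≤ |y - x| := abs_nonneg _
      linarith)
  have hwlim : ∀ t, 0 < t → Tendsto (fun n => W (s1 n) t) atTop (𝓝 (Real.exp (g (Real.log t)))) := by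
    intro t ht
    have h1 := (hgK {Real.log t} isCompact_singleton).tendsto_at (mem_singleton _)
    have h2 := (Real.continuous_exp.tendsto _).comp h1
    refine h2.congr fun n => ?_
    simp only [Function.comp]
    rw [Real.exp_log ht, Real.exp_log ((hW (s1 n)).pos t ht)]
  set W' : ℝ → ℝ := fun t => Real.exp (g (Real.log t)) with hW'
  have hWt : Wt a b W' := by
    refine ⟨fun t _ => Real.exp_pos _, fun s t hs hst => ?_, fun s t hs hst => ?_⟩
    · exact le_of_tendsto_of_tendsto' ((hwlim s hs).const_mul ((t / s) ^ (-a)))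
        (hwlim t (hs.trans_le hst)) fun n => (hW (s1 n)).lo s t hs hst
    · exact le_of_tendsto_of_tendsto' (hwlim t (hs.trans_le hst))
        ((hwlim s hs).const_mul ((t / s) ^ b)) fun n => (hW (s1 n)).hi s t hs hst
  have hW'1 : W' 1 = 1 := by
    have h1 := hwlim 1 one_pos
    simp only [hW1] at h1
    exact tendsto_nhds_unique h1 tendsto_const_nhds
  -- the structure functions
  have hAn : ∀ n, Nrm a b L (A n) := fun n => ⟨W n, hW n, hW1 n, hAA n⟩
  obtain ⟨s2, hs2, A', hA'c, hA'K⟩ := arzela (X := Hv m) (E := Hv m) (fun n => A (s1 n)) (by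
      intro x
      refine ⟨2 * L * ‖x‖ ^ (1 - a) + L * (max 1 ‖x‖) ^ b * ‖x‖, Eventually.of_forall fun n => ?_⟩
      have h1 := nrm_lip ha0 ha hb hL (hAn (s1 n)) (le_max_left 1 ‖x‖) (ξ := x) (ζ := 0)
        (le_max_right _ _) (by rw [norm_zero]; positivity)
      rw [h0, sub_zero, sub_zero] at h1
      exact h1) (by
      intro x ε hε
      have hcont : ContinuousAt (fun d : ℝ => 2 * L * d ^ (1 - a) + L * (‖x‖ + 1) ^ b * d) 0 := by
        refine ContinuousAt.add ?_ ?_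
        · exact continuousAt_const.mul
            (Real.continuousAt_rpow_const 0 (1 - a) (Or.inr (by linarith)))
        · exact continuousAt_const.mul continuousAt_id
      have hz : 2 * L * (0 : ℝ) ^ (1 - a) + L * (‖x‖ + 1) ^ b * 0 = 0 := by
        rw [Real.zero_rpow (by linarith)]
        ring
      obtain ⟨δ, hδ, hδ'⟩ := Metric.continuousAt_iff.1 hcont ε hε
      refine ⟨min δ 1, lt_min hδ one_pos, Eventually.of_forall fun n y hy => ?_⟩
      have hy1 : dist y x < δ := hy.trans_le (min_le_left _ _)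
      have hy2 : dist y x < 1 := hy.trans_le (min_le_right _ _)
      rw [dist_eq_norm] at hy1 hy2
      have hyn : ‖y‖ ≤ ‖x‖ + 1 := by
        have h2 := norm_le_norm_add_norm_sub' y x
        have h3 : ‖y‖ - ‖x‖ ≤ ‖y - x‖ := norm_sub_norm_le y x
        linarith
      have h1 := nrm_lip ha0 ha hb hL (hAn (s1 n)) (M := ‖x‖ + 1) (by linarith [norm_nonneg x])
        (ξ := y) (ζ := x) hyn (by linarith)
      refine h1.trans ?_
      have h4 := hδ' (x := ‖y - x‖) (by rw [Real.dist_eq, sub_zero, abs_of_nonneg (norm_nonneg _)]; exact hy1)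
      rw [hz, Real.dist_eq, sub_zero] at h4
      exact (le_abs_self _).trans h4.le)
  have hA'pt : ∀ ξ, Tendsto (fun n => A (s1 (s2 n)) ξ) atTop (𝓝 (A' ξ)) := fun ξ =>
    (hA'K {ξ} isCompact_singleton).tendsto_at (mem_singleton _)
  refine ⟨fun n => s1 (s2 n), hs1.comp hs2, A', ⟨W', hWt, hW'1, ?_, ?_⟩, fun M => ?_⟩
  · intro ξ ζ
    rcases eq_or_lt_of_le (show 0 ≤ max ‖ξ‖ ‖ζ‖ from (norm_nonneg ξ).trans (le_max_left _ _))
      with h | h
    · have h1 : ξ = 0 := by
        rw [← norm_le_zero_iff, h]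
        exact le_max_left _ _
      have h2 : ζ = 0 := by
        rw [← norm_le_zero_iff, h]
        exact le_max_right _ _
      subst h1 h2
      simp
    · have h1 := (hwlim _ h).comp hs2.tendsto_atTop
      exact le_of_tendsto_of_tendsto' (h1.mul_const (‖ξ - ζ‖ ^ 2))
        (((hA'pt ξ).sub (hA'pt ζ)).inner tendsto_const_nhds)
        fun n => (hAA (s1 (s2 n))).mono ξ ζ
  · intro ξ ζ
    rcases eq_or_lt_of_le (show 0 ≤ max ‖ξ‖ ‖ζ‖ from (norm_nonneg ξ).trans (le_max_left _ _))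
      with h | h
    · have h1 : ξ = 0 := by
        rw [← norm_le_zero_iff, h]
        exact le_max_left _ _
      have h2 : ζ = 0 := by
        rw [← norm_le_zero_iff, h]
        exact le_max_right _ _
      subst h1 h2
      simp
    · have h1 := (hwlim _ h).comp hs2.tendsto_atTop
      exact le_of_tendsto_of_tendsto' ((hA'pt ξ).sub (hA'pt ζ)).norm
        ((h1.const_mul L).mul_const ‖ξ - ζ‖) fun n => (hAA (s1 (s2 n))).lip ξ ζ
  · exact hA'K _ (isCompact_closedBall _ _)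

end Pool.Agent.CG
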